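import Pool.Agent.W5h52.IE.Defs

/-! (B5) the abstract theorem of part B. -/

open MeasureTheory Set Function Filter Topology

namespace Pool.Agent.W5h52.IE

namespace BB

section

variable {Ω G : Type} (ν : ℕ → Bn Ω G)

/-- the node `i` is small and surrounds `x` -/
def Sml (k : ℕ) (x : ℝ) (i : ℕ) : Prop := x ∈ Ioo (ν i).p (ν i).q ∧ (ν i).q - (ν i).p < 1 / (k + 1)

/-- the set of points whose first small node is the node `i` -/
def Fst (k i : ℕ) : Set ℝ := {x | Sml ν k x i ∧ ∀ j < i, ¬ Sml ν k x j}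

lemma meas_sml (k i : ℕ) : MeasurableSet {x | Sml ν k x i} := by
  have : {x | Sml ν k x i} = Ioo (ν i).p (ν i).q ∩ {x | (ν i).q - (ν i).p < 1 / (k + 1)} := rfl
  rw [this]
  exact measurableSet_Ioo.inter (MeasurableSet.const _)

lemma meas_fst (k i : ℕ) : MeasurableSet (Fst ν k i) := by
  have : Fst ν k i = {x | Sml ν k x i} ∩ ⋂ j ∈ Finset.range i, {x | Sml ν k x j}ᶜ := by
    ext x
    simp [Fst]
  rw [this]
  exact (meas_sml ν k i).inter (Finset.measurableSet_biInter _ fun j _ => (meas_sml ν k j).compl)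

lemma fst_disj (k : ℕ) : Pairwise (Function.onFun Disjoint (Fst ν k)) := by
  intro i j hij
  rw [Function.onFun, Set.disjoint_left]
  intro x hi hj
  rcases lt_or_gt_of_ne hij with h | h
  · exact hj.2 i h hi.1
  · exact hi.2 j h hj.1

lemma exists_fst {k : ℕ} {x : ℝ} (h : ∃ i, Sml ν k x i) : ∃ i, x ∈ Fst ν k i := by
  classical
  exact ⟨Nat.find h, Nat.find_spec h, fun j hj => Nat.find_min h hj⟩

/-- the points with a good first node -/
def Bk (W : Set (G × G)) (k : ℕ) : Set (Ω × ℝ) :=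
  ⋃ i, {ω | ((ν i).h false ω, (ν i).h true ω) ∈ W} ×ˢ (Fst ν k i ∩ Ioo 0 1)

variable [MeasurableSpace Ω] [MeasurableSpace G] {P : Measure Ω} {μ : Measure G}
  [SFinite P] [SFinite μ]

lemma meas_Bk (hν : ∀ i, MeasurePreserving (fun ω => ((ν i).h false ω, (ν i).h true ω)) P (μ.prod μ))
    {W : Set (G × G)} (hW : MeasurableSet W) (k : ℕ) : MeasurableSet (Bk ν W k) := by
  refine MeasurableSet.iUnion fun i => ?_
  exact ((hν i).measurable hW).prod ((meas_fst ν k i).inter measurableSet_Ioo)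

lemma vol_Bk (hν : ∀ i, MeasurePreserving (fun ω => ((ν i).h false ω, (ν i).h true ω)) P (μ.prod μ))
    {W : Set (G × G)} (hW : MeasurableSet W) (k : ℕ) :
    (P.prod volume) (Bk ν W k) ≤ (μ.prod μ) W := by
  calc (P.prod volume) (Bk ν W k)
      ≤ ∑' i, (P.prod volume) ({ω | ((ν i).h false ω, (ν i).h true ω) ∈ W} ×ˢ
          (Fst ν k i ∩ Ioo 0 1)) := measure_iUnion_le _
    _ = ∑' i, (μ.prod μ) W * volume (Fst ν k i ∩ Ioo (0:ℝ) 1) := by
        congr 1
        ext i
        rw [Measure.prod_prod]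
        congr 1
        exact (hν i).measure_preimage hW.nullMeasurableSet
    _ = (μ.prod μ) W * ∑' i, volume (Fst ν k i ∩ Ioo (0:ℝ) 1) := ENNReal.tsum_mul_left
    _ = (μ.prod μ) W * volume (⋃ i, Fst ν k i ∩ Ioo (0:ℝ) 1) := by
        rw [measure_iUnion]
        · intro i j hij
          exact (fst_disj ν k hij).mono inter_subset_left inter_subset_left
        · exact fun i => (meas_fst ν k i).inter measurableSet_Ioo
    _ ≤ (μ.prod μ) W * volume (Ioo (0:ℝ) 1) := by
        gcongr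
        exact iUnion_subset fun i => inter_subset_right
    _ = (μ.prod μ) W := by simp

/-- the points which have a good first node for all large `k` -/
def Dk (W : Set (G × G)) : Set (Ω × ℝ) := ⋃ N : ℕ, ⋂ k ≥ N, Bk ν W k

lemma vol_Dk (hν : ∀ i, MeasurePreserving (fun ω => ((ν i).h false ω, (ν i).h true ω)) P (μ.prod μ))
    {W : Set (G × G)} (hW : MeasurableSet W) :
    (P.prod volume) (Dk ν W) ≤ (μ.prod μ) W := by
  unfold Dk
  rw [Monotone.measure_iUnion]
  · refine iSup_le fun N => ?_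
    refine (measure_mono ?_).trans (vol_Bk ν hν hW N)
    exact iInter₂_subset N le_rfl
  · intro a b hab
    exact biInter_mono (fun k hk => le_trans hab hk) fun _ _ => le_rfl

end

end BB

open BB

theorem bb : S_SE → S_TRIV → S_SM → S_LEB → S_B := by
  intro hSE hTR hSM hLEB Ω _ P _ G _ _ _ _ _ _ _ _ μ _ _ hdense c hc ν hν1 hν2 hν3
  obtain ⟨κ, hκ⟩ := hTR G μ
  -- the exceptional sets
  have h1 : ∀ n m : ℕ, ∀ᵐ ω ∂P, volume {x : ℝ | ∀ r : ℕ,
      (ω, x) ∈ Dk ν (SE (κ n) (1 / (m + 1)) (1 / (r + 1)))} = 0 := by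
    intro n m
    have hη : (0:ℝ) < 1 / (m + 1) := by positivity
    obtain ⟨hcl, hlim⟩ := hSE G μ hdense (κ n) (1 / (m + 1)) hη
    have h2 : (P.prod volume) (⋂ r : ℕ, Dk ν (SE (κ n) (1 / (m + 1)) (1 / ((r:ℝ) + 1)))) = 0 := by
      refine le_antisymm ?_ bot_le
      refine ge_of_tendsto' hlim fun r => ?_
      refine (measure_mono (iInter_subset _ r)).trans ?_
      exact vol_Dk ν hν2 (hcl _).measurableSet
    have h3 := Measure.measure_ae_null_of_prod_null h2
    filter_upwards [h3] with ω hω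
    refine (measure_mono_null ?_ hω)
    intro x hx
    simpa using hx
  have h1' : ∀ᵐ ω ∂P, ∀ n m : ℕ, volume {x : ℝ | ∀ r : ℕ,
      (ω, x) ∈ Dk ν (SE (κ n) (1 / (m + 1)) (1 / (r + 1)))} = 0 := by
    rw [ae_all_iff]
    intro n
    rw [ae_all_iff]
    exact h1 n
  filter_upwards [h1'] with ω hω E hE hinv
  choose u hu1 hu2 hu3 hu4 using fun n => hSM G μ (κ n) E hE
  -- the smoothings are almost everywhere constant
  have h4 : ∀ n m : ℕ, ∀ᵐ x : ℝ, x ∈ Ioo (0:ℝ) 1 → ∀ y y', |u n x y - u n x y'| < 1 / (m + 1) := by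
    intro n m
    have h5 := hLEB G (κ n) (u n) (hu2 n) (hu3 n) (hu4 n) c hc
    have h6 : ∀ᵐ x : ℝ, ¬ ∀ r : ℕ, (ω, x) ∈ Dk ν (SE (κ n) (1 / (m + 1)) (1 / (r + 1))) := by
      rw [ae_iff]
      simpa using hω n m
    filter_upwards [h5, h6, hν3] with x hx5 hx6 hx3 hx01 y y'
    by_contra hcon
    push Not at hcon
    apply hx6
    intro r
    have hε : (0:ℝ) < 1 / (r + 1) / 2 := by positivity
    obtain ⟨ρ, hρ, hx7⟩ := hx5 _ hε
    obtain ⟨N, hN⟩ := exists_nat_one_div_lt hρ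
    simp only [Dk, mem_iUnion, mem_iInter]
    refine ⟨N, fun k hk => ?_⟩
    obtain ⟨i, hi⟩ := exists_fst ν (hx3 hx01 (1 / (k + 1)) (by positivity))
    simp only [Bk, mem_iUnion]
    refine ⟨i, ?_, hi, hx01⟩
    have hlen : (ν i).q - (ν i).p < ρ := by
      refine hi.1.2.trans (lt_of_le_of_lt ?_ hN)
      apply one_div_le_one_div_of_le (by positivity)
      have : (N:ℝ) ≤ k := by exact_mod_cast hk
      linarith
    have key : ∀ j, ∀ y, |u n x ((ν i).h j ω * y) - u n x y| ≤ 1 / (r + 1) := by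
      intro j y
      obtain ⟨-, hj⟩ := hν1 i
      obtain ⟨hw, hl, hlq, hm, hmq⟩ := hj j
      obtain ⟨t, htF, htI, ht1, ht2⟩ := hx7 (ν i).p (ν i).q ((ν i).l j) ((ν i).m j) ((ν i).w j)
        hi.1.1.1 hi.1.1.2 hlen hw hl hlq hm hmq _ (hinv i j)
      have heq : u n (t + ((ν i).m j - (ν i).l j)) ((ν i).h j ω * y) = u n t y := by
        rw [hu1, hu1]
        congr 1
        ext z
        congr 1
        have := htF htI (y * z)
        by_cases hz : (t, y * z) ∈ E
        · rw [indicator_of_mem hz, mul_assoc, indicator_of_mem (this.2 hz)]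
        · rw [indicator_of_notMem hz, mul_assoc, indicator_of_notMem (fun h => hz (this.1 h))]
      have h7 := ht1 y
      have h8 := ht2 ((ν i).h j ω * y)
      rw [heq] at h8
      calc |u n x ((ν i).h j ω * y) - u n x y|
          = |(u n t y - u n x y) - (u n t y - u n x ((ν i).h j ω * y))| := by ring_nf
        _ ≤ |u n t y - u n x y| + |u n t y - u n x ((ν i).h j ω * y)| := abs_sub _ _
        _ ≤ 1 / (r + 1) / 2 + 1 / (r + 1) / 2 := by gcongr
        _ = 1 / (r + 1) := by ring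
    exact ⟨u n x, ⟨fun y y' δ => hu3 n x y y' δ, fun y δ => hu4 n x y δ, y, y', hcon⟩,
      key false, key true⟩
  have h4' : ∀ᵐ x : ℝ, ∀ n m : ℕ, x ∈ Ioo (0:ℝ) 1 → ∀ y y', |u n x y - u n x y'| < 1 / (m + 1) := by
    rw [ae_all_iff]
    intro n
    rw [ae_all_iff]
    exact h4 n
  filter_upwards [h4'] with x hx hx01
  have hEx : MeasurableSet {y : G | (x, y) ∈ E} := measurable_prodMk_left hE
  apply hκ _ hEx
  intro n y y'
  have h9 : u n x y = u n x y' := by
    by_contra hne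
    obtain ⟨m, hm⟩ := exists_nat_one_div_lt (abs_pos.2 (sub_ne_zero.2 hne))
    exact absurd (hx n m hx01 y y') (not_lt.2 hm.le)
  rw [hu1, hu1] at h9
  exact h9

end Pool.Agent.W5h52.IE
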