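import Pool.Agent.W5h52.IE.Defs

/-! (A8): infinitely often no letter dominates. -/

open MeasureTheory Set Function Filter Topology

namespace Pool.Agent.W5h52.IE

theorem bal_sy_w {A : Type} (r t : Bool) (s : St A) : (sy r t s).w = s.w := by
  cases r <;> cases t <;> rfl

theorem bal_sy_len {A : Type} (r t : Bool) (s : St A) :
    (sy r t s).q - (sy r t s).p = s.q - s.p := by
  cases r <;> cases t <;> simp [sy, rf, sw] <;> ring

theorem bal_sy_del {A : Type} (r t : Bool) (s : St A) (c : A) :
    (sy r t s).m c - (sy r t s).l c = (if xor r t then -1 else 1) * (s.m c - s.l c) := by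
  cases r <;> cases t <;> simp [sy, rf, sw] <;> ring

section
variable {A : Type} [DecidableEq A]

theorem bal_mv_w (r t : Bool) (a b : A) (s : St A) :
    (mv r t a b s).w = update s.w a (s.w a - s.w b) := by
  unfold mv
  rw [bal_sy_w]
  simp only [mb]
  rw [bal_sy_w]

theorem bal_mv_len (r t : Bool) (a b : A) (s : St A) :
    (mv r t a b s).q - (mv r t a b s).p = s.q - s.p - s.w b := by
  unfold mv
  rw [bal_sy_len]
  simp only [mb]
  rw [bal_sy_w]
  have := bal_sy_len r t s
  linarith

theorem bal_mv_del (r t : Bool) (a b : A) (s : St A) (c : A) (hc : c ≠ b) :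
    (mv r t a b s).m c - (mv r t a b s).l c = s.m c - s.l c := by
  unfold mv
  rw [bal_sy_del]
  simp only [mb]
  rw [update_of_ne hc, bal_sy_del]
  cases r <;> cases t <;> simp

end

theorem bal_two {A : Type} [Fintype A] [DecidableEq A] {w : A → ℝ} (hw : ∀ a, 0 ≤ w a) {a b : A}
    (h : a ≠ b) : w a + w b ≤ ∑ x, w x := by
  rw [← Finset.sum_pair h]
  exact Finset.sum_le_sum_of_subset_of_nonneg (Finset.subset_univ _) fun x _ _ => hw x

/-- (A8) -/
theorem bal : S_SHR → S_NE → S_BAL := by
  intro hS hNE A _ _ s hok hmv N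
  by_contra hcon
  have hcon' : ∀ n, N ≤ n → ∃ a, 3 / 4 * ((s n).q - (s n).p) < (s n).w a := by
    intro n hn
    by_contra h
    refine hcon ⟨n, hn, fun a => ?_⟩
    by_contra h2
    exact h ⟨a, not_le.mp h2⟩
  obtain ⟨c, hc⟩ := hcon' N le_rfl
  have key : ∀ k, 3 / 4 * ((s (N + k)).q - (s (N + k)).p) < (s (N + k)).w c ∧
      (s (N + k)).m c - (s (N + k)).l c = (s N).m c - (s N).l c := by
    intro k
    induction k with
    | zero => exact ⟨hc, rfl⟩
    | succ k ih =>
      obtain ⟨ih1, ih2⟩ := ih
      obtain ⟨r, t, a, b, hV, hs⟩ := hmv (N + k)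
      obtain ⟨hab, hb1, hb2, -, -⟩ := hV
      rw [bal_sy_w] at hb1 hb2
      have hw := (hok (N + k)).top.1
      have hsum := (hok (N + k)).top.2.2.2
      have hlt := (hok (N + k)).lt
      have h2 := bal_two hw hab
      have hcb : c ≠ b := by
        rintro rfl
        linarith
      have hl := bal_mv_len r t a b (s (N + k))
      have hww := bal_mv_w r t a b (s (N + k))
      have hd := bal_mv_del r t a b (s (N + k)) c hcb
      rw [← hs] at hl hww hd
      have hcb2 := bal_two hw hcb
      -- the width of `c` after the move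
      have hhalf : 1 / 2 * ((s (N + k + 1)).q - (s (N + k + 1)).p) < (s (N + k + 1)).w c := by
        rw [hl, hww]
        by_cases hca : c = a
        · subst hca
          rw [update_self]
          linarith
        · rw [update_of_ne hca]
          linarith
      obtain ⟨c', hc'⟩ := hcon' (N + k + 1) (by omega)
      have hw' := (hok (N + k + 1)).top.1
      have hsum' := (hok (N + k + 1)).top.2.2.2
      have hlt' := (hok (N + k + 1)).lt
      have hcc : c' = c := by
        by_contra hne
        have := bal_two hw' hne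
        linarith
      subst hcc
      exact ⟨hc', by rw [← ih2, ← hd]; rfl⟩
  have hlim := hS A s hok hmv
  have hpos : 0 < |(s N).m c - (s N).l c| := by
    rw [abs_pos, sub_ne_zero]
    refine hNE A (s N) (hok N) c ?_
    have := (hok N).lt
    linarith
  obtain ⟨M, hM⟩ := ((hlim.eventually (gt_mem_nhds hpos)).exists_forall_of_atTop)
  have h1 := hM (N + M) (by omega)
  obtain ⟨k1, k2⟩ := key M
  have hlt := (hok (N + M)).lt
  have hwc : 0 < (s (N + M)).w c := by linarith
  have t1 := (hok (N + M)).top.2.1 c hwc
  have t2 := (hok (N + M)).bot.2.1 c hwc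
  rw [← k2] at h1
  have h3 : |(s (N + M)).m c - (s (N + M)).l c| ≤ (s (N + M)).q - (s (N + M)).p := by
    rw [abs_le]
    constructor <;> linarith [t1.1, t1.2, t2.1, t2.2]
  linarith

end Pool.Agent.W5h52.IE
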