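import Pool.Agent.W5h52.IE.Defs

/-! The base move preserves ergodicity. -/

set_option autoImplicit false

open MeasureTheory Set Function Filter Topology

namespace Pool.Agent.W5h52.IE

/-- translations preserve null sets -/
theorem ae_shift {P : ℝ → Prop} (h : ∀ᵐ x : ℝ, P x) (c : ℝ) : ∀ᵐ x : ℝ, P (x - c) :=
  (measurePreserving_sub_right (volume : Measure ℝ) c).quasiMeasurePreserving.ae h

/-- (A3) the base move preserves ergodicity. -/
theorem ergM : S_ERG := by
  intro A _ _ s a b hs hV K' hK' hinv
  obtain ⟨hab, hb, hba, hla, hmb⟩ := hV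
  obtain ⟨hpq, ⟨htw, htI, htd, hts⟩, ⟨hbw, hbI, hbd, hbs⟩, herg⟩ := hs
  have ha : 0 < s.w a := hb.trans_le hba
  -- positions
  have hlb : s.l b + s.w b ≤ s.l a := by
    rcases htd a b hab ha hb with h | h
    · have := (htI b hb).2
      linarith
    · exact h
  have hma : s.m a + s.w a ≤ s.m b := by
    rcases hbd a b hab ha hb with h | h
    · exact h
    · have := (hbI a ha).2
      linarith
  simp only [mb] at hinv ⊢
  set K : Set ℝ := {x | (x < s.q - s.w b ∧ x ∈ K') ∨ (s.q - s.w b < x ∧ x - (s.m b - s.l b) ∈ K')}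
    with hKdef
  have hKlt : ∀ x, x < s.q - s.w b → (x ∈ K ↔ x ∈ K') := by
    intro x hx
    simp only [hKdef, mem_ofPred_eq]
    constructor
    · rintro (h | h)
      · exact h.2
      · exact absurd h.1 (by linarith)
    · intro h
      exact Or.inl ⟨hx, h⟩
  have hKgt : ∀ x, s.q - s.w b < x → (x ∈ K ↔ x - (s.m b - s.l b) ∈ K') := by
    intro x hx
    simp only [hKdef, mem_ofPred_eq]
    constructor
    · rintro (h | h)
      · exact absurd h.1 (by linarith)
      · exact h.2
    · intro h
      exact Or.inr ⟨hx, h⟩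
  have hKm : MeasurableSet K := by
    have h1 : MeasurableSet (Iio (s.q - s.w b) ∩ K') := measurableSet_Iio.inter hK'
    have h2 : MeasurableSet (Ioi (s.q - s.w b) ∩ (fun x => x - (s.m b - s.l b)) ⁻¹' K') :=
      measurableSet_Ioi.inter ((measurable_id.sub_const _) hK')
    exact h1.union h2
  have hKinv : ∀ c, ∀ᵐ x : ℝ, x ∈ Ioo (s.l c) (s.l c + s.w c) →
      (x ∈ K ↔ x + (s.m c - s.l c) ∈ K) := by
    intro c
    by_cases hcb : c = b
    · subst hcb
      refine Eventually.of_forall fun x hx => ?_
      rw [hKlt x (by linarith [hx.2]), hKgt (x + (s.m c - s.l c)) (by linarith [hx.1]),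
        add_sub_cancel_right]
    by_cases hca : c = a
    · subst hca
      have h1 := hinv c
      have h2 := ae_shift (hinv b) (s.m b - s.l b)
      have h3 : ∀ᵐ x : ℝ, x ∉ ({s.q - s.w b} : Set ℝ) := (countable_singleton _).ae_notMem _
      rw [update_of_ne hab, update_self] at h1
      rw [update_self, update_of_ne (Ne.symm hab)] at h2
      filter_upwards [h1, h2, h3] with x h1 h2 h3 hx
      rw [hKlt (x + (s.m c - s.l c)) (by linarith [hx.2])]
      rcases lt_trichotomy x (s.q - s.w b) with h | h | h
      · rw [hKlt x h]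
        exact h1 ⟨hx.1, by linarith⟩
      · exact absurd h h3
      · rw [hKgt x h, h2 ⟨by linarith, by linarith [hx.2]⟩]
        have e : x - (s.m b - s.l b) + (s.m c + s.w c - s.w b - s.l b) = x + (s.m c - s.l c) := by
          linarith
        rw [e]
    · rcases (htw c).eq_or_lt with h0 | hc
      · refine Eventually.of_forall fun x hx => ?_
        rw [← h0, add_zero] at hx
        exact absurd (hx.1.trans hx.2) (lt_irrefl _)
      have h1 := hinv c
      rw [update_of_ne hcb, update_of_ne hca] at h1
      have hlc : s.l c + s.w c ≤ s.l a := by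
        rcases htd a c (Ne.symm hca) ha hc with h | h
        · have := (htI c hc).2
          linarith
        · exact h
      have hmc : s.m c + s.w c ≤ s.m b := by
        rcases hbd c b hcb hc hb with h | h
        · exact h
        · have := (hbI c hc).2
          linarith
      filter_upwards [h1] with x h1 hx
      rw [hKlt x (by linarith [hx.2]), hKlt (x + (s.m c - s.l c)) (by linarith [hx.2])]
      exact h1 hx
  rcases herg K hKm hKinv with h | h
  · left
    refine measure_mono_null ?_ h
    rintro x ⟨hx, hxK⟩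
    exact ⟨⟨hx.1, by linarith [hx.2]⟩, (hKlt x hx.2).2 hxK⟩
  · right
    refine measure_mono_null ?_ h
    rintro x ⟨hx, hxK⟩
    exact ⟨⟨hx.1, by linarith [hx.2]⟩, fun h => hxK ((hKlt x hx.2).1 h)⟩

end Pool.Agent.W5h52.IE
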