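import Pool.Agent.W5h52.IE.Defs

/-! (T2): the return words of a node are independent and Haar distributed. -/

open MeasureTheory Set Function Filter Topology

namespace Pool.Agent.W5h52.IE

theorem haar_right {G : Type} [Group G] [TopologicalSpace G] [IsTopologicalGroup G]
    [CompactSpace G] [T2Space G] [SecondCountableTopology G] [MeasurableSpace G] [BorelSpace G]
    (μ : Measure G) [μ.IsHaarMeasure] [IsProbabilityMeasure μ] : μ.IsMulRightInvariant := by
  constructor
  intro g
  have : IsProbabilityMeasure (μ.map (· * g)) :=
    Measure.isProbabilityMeasure_map (measurable_mul_const g).aemeasurable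
  have : (μ.map (· * g)).IsHaarMeasure := by infer_instance
  exact Measure.isHaarMeasure_eq_of_isProbabilityMeasure _ _

theorem haar_upd {A : Type} [Fintype A] [DecidableEq A] {G : Type} [Group G]
    [TopologicalSpace G] [IsTopologicalGroup G] [CompactSpace G] [T2Space G]
    [SecondCountableTopology G] [MeasurableSpace G] [BorelSpace G]
    (μ : Measure G) [μ.IsHaarMeasure] [IsProbabilityMeasure μ] (t : Bool) {a b : A} (hab : a ≠ b) :
    MeasurePreserving
      (fun (g : A → G) => update g b (if t then g b * g a else g a * g b))
      (Measure.pi fun _ => μ) (Measure.pi fun _ => μ) := by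
  have := haar_right μ
  have hT : Measurable (fun (g : A → G) => update g b (if t then g b * g a else g a * g b)) := by
    rw [measurable_pi_iff]
    intro c
    by_cases hc : c = b
    · subst hc
      simp only [update_self]
      cases t
      · simp only [Bool.false_eq_true, if_false]
        exact (measurable_pi_apply a).mul (measurable_pi_apply c)
      · simp only [if_true]
        exact (measurable_pi_apply c).mul (measurable_pi_apply a)
    · simp only [update_of_ne hc]
      exact measurable_pi_apply c
  refine ⟨hT, ?_⟩
  ext s hs
  rw [Measure.map_apply hT hs]
  rw [← lintegral_indicator_one hs, ← lintegral_indicator_one (hT hs)]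
  refine lintegral_eq_of_lmarginal_eq {b} (measurable_const.indicator (hT hs))
    (measurable_const.indicator hs) ?_
  rw [lmarginal_singleton, lmarginal_singleton]
  funext x
  have hf : Measurable (fun y : G => s.indicator (1 : (A → G) → ENNReal) (update x b y)) :=
    (measurable_const.indicator hs).comp (measurable_update x)
  have h1 : ∀ y : G, ((fun (g : A → G) => update g b (if t then g b * g a else g a * g b)) ⁻¹'
      s).indicator (1 : (A → G) → ENNReal) (update x b y) =
      s.indicator (1 : (A → G) → ENNReal) (update x b (if t then y * x a else x a * y)) := by
    intro y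
    have h2 : update (update x b y) b (if t then (update x b y) b * (update x b y) a else
        (update x b y) a * (update x b y) b) = update x b (if t then y * x a else x a * y) := by
      simp [update_of_ne hab]
    have h3 : update x b y ∈ ((fun (g : A → G) =>
        update g b (if t then g b * g a else g a * g b)) ⁻¹' s) ↔
        update x b (if t then y * x a else x a * y) ∈ s := by
      rw [mem_preimage]
      change update (update x b y) b (if t then (update x b y) b * (update x b y) a else
        (update x b y) a * (update x b y) b) ∈ s ↔ _
      rw [h2]
    by_cases h4 : update x b (if t then y * x a else x a * y) ∈ s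
    · rw [indicator_of_mem h4, indicator_of_mem (h3.2 h4)]
      rfl
    · rw [indicator_of_notMem h4, indicator_of_notMem (fun h => h4 (h3.1 h))]
  simp only [h1]
  cases t
  · simpa using lintegral_mul_left_eq_self
      (fun y : G => s.indicator (1 : (A → G) → ENNReal) (update x b y)) (x a)
  · simpa using lintegral_mul_right_eq_self
      (fun y : G => s.indicator (1 : (A → G) → ENNReal) (update x b y)) (x a)

theorem haar : S_HAAR := by
  intro A _ _ G _ _ _ _ _ _ _ _ μ _ _ s0 L z hz
  induction hz with
  | nil =>
    have h : (fun (g : A → G) (a : A) => ev g (((s0, fun a => [a]) : Nd A).2 a)) = id := by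
      funext g a
      simp [ev]
    rw [h]
    exact MeasurePreserving.id _
  | cons L z e _ hV ih =>
    have hab : e.2.2.1 ≠ e.2.2.2 := hV.1
    have h := (haar_upd μ e.2.1 hab).comp ih
    have h2 : (fun (g : A → G) => update g e.2.2.2
        (if e.2.1 then g e.2.2.2 * g e.2.2.1 else g e.2.2.1 * g e.2.2.2)) ∘
        (fun (g : A → G) (a : A) => ev g (z.2 a)) =
        (fun (g : A → G) (a : A) => ev g ((step e z).2 a)) := by
      funext g c
      simp only [comp, step]
      by_cases hc : c = e.2.2.2
      · subst hc
        simp only [update_self]
        split_ifs <;> simp [ev]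
      · simp only [update_of_ne hc]
    rw [h2] at h
    exact h

end Pool.Agent.W5h52.IE
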