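import Pool.Agent.W5h52.IE.Fin0

/-! Lemma (C1) for MP_5ca0ff_an: facts on the initial state. -/

open MeasureTheory Set Function Filter Topology

namespace Pool.Agent.W5h52.IE

namespace IET
variable {d : ℕ} (I : IET d)

/-- partial sums in the order `σ` -/
noncomputable def ps (σ : Equiv.Perm (Fin d)) (j : Fin d) : ℝ :=
  ∑ i ∈ Finset.univ.filter (fun i => σ i < σ j), I.len i

theorem left_eq : I.left = I.ps 1 := rfl
theorem left'_eq : I.left' = I.ps I.perm := rfl

theorem ps_nonneg (σ : Equiv.Perm (Fin d)) (j : Fin d) : 0 ≤ I.ps σ j :=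
  Finset.sum_nonneg fun i _ => (I.pos i).le

theorem ps_add (σ : Equiv.Perm (Fin d)) (j : Fin d) :
    I.ps σ j + I.len j = ∑ i ∈ Finset.univ.filter (fun i => σ i ≤ σ j), I.len i := by
  have h : Finset.univ.filter (fun i => σ i ≤ σ j) =
      insert j (Finset.univ.filter (fun i => σ i < σ j)) := by
    ext i
    simp only [Finset.mem_filter, Finset.mem_univ, true_and, Finset.mem_insert]
    rw [le_iff_lt_or_eq, or_comm, σ.injective.eq_iff]
  rw [h, Finset.sum_insert (by simp), add_comm]
  rfl

theorem ps_add_le_one (σ : Equiv.Perm (Fin d)) (j : Fin d) : I.ps σ j + I.len j ≤ 1 := by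
  rw [ps_add, ← I.sum_len]
  exact Finset.sum_le_sum_of_subset_of_nonneg (Finset.filter_subset _ _)
    fun i _ _ => (I.pos i).le

theorem ps_le (σ : Equiv.Perm (Fin d)) {i j : Fin d} (h : σ i < σ j) :
    I.ps σ i + I.len i ≤ I.ps σ j := by
  rw [ps_add]
  refine Finset.sum_le_sum_of_subset_of_nonneg ?_ fun i _ _ => (I.pos i).le
  intro k hk
  simp only [Finset.mem_filter, Finset.mem_univ, true_and] at hk ⊢
  exact lt_of_le_of_lt hk h

theorem ps_tile (σ : Equiv.Perm (Fin d)) : Tile 0 1 (I.ps σ) I.len := by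
  refine ⟨fun a => (I.pos a).le, fun a _ => ⟨I.ps_nonneg σ a, I.ps_add_le_one σ a⟩, ?_, ?_⟩
  · intro a b hab _ _
    rcases lt_or_gt_of_ne (fun h => hab (σ.injective h) : σ a ≠ σ b) with h | h
    · exact Or.inl (I.ps_le σ h)
    · exact Or.inr (I.ps_le σ h)
  · rw [I.sum_len, sub_zero]

theorem piece_unique {i j : Fin d} {x : ℝ} (hi : x ∈ I.piece i) (hj : x ∈ I.piece j) :
    i = j := by
  by_contra hne
  rcases (I.ps_tile 1).2.2.1 i j hne (I.pos i) (I.pos j) with h | h
  · exact absurd (hi.2.trans_le (h.trans hj.1)) (lt_irrefl _)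
  · exact absurd (hj.2.trans_le (h.trans hi.1)) (lt_irrefl _)

theorem piece_exists {x : ℝ} (hx : x ∈ Ico (0 : ℝ) 1) : ∃ j, x ∈ I.piece j := by
  have hd : 0 < d := by
    rcases Nat.eq_zero_or_pos d with h | h
    · subst h
      have := I.sum_len
      simp at this
    · exact h
  have h0 : I.left ⟨0, hd⟩ = 0 := by
    unfold left
    have : Finset.univ.filter (fun i : Fin d => i < ⟨0, hd⟩) = ∅ := by
      ext i
      simp [Fin.lt_def]
    rw [this, Finset.sum_empty]
  let S := Finset.univ.filter (fun j => I.left j ≤ x)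
  have hS : S.Nonempty := ⟨⟨0, hd⟩, by simp [S, h0, hx.1]⟩
  have hmem := S.max'_mem hS
  set j := S.max' hS with hj
  have hjx : I.left j ≤ x := (Finset.mem_filter.1 hmem).2
  refine ⟨j, hjx, ?_⟩
  by_contra hc
  push Not at hc
  let R := Finset.univ.filter (fun i => j < i)
  rcases R.eq_empty_or_nonempty with hR | hR
  · have : I.left j + I.len j = 1 := by
      rw [left_eq, ps_add, ← I.sum_len]
      refine Finset.sum_congr ?_ fun _ _ => rfl
      ext i
      simp only [Finset.mem_filter, Finset.mem_univ, true_and, iff_true]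
      show i ≤ j
      by_contra hij
      have : i ∈ R := by simp [R]; exact not_le.1 hij
      rw [hR] at this
      simp at this
    linarith [hx.2]
  · have hi := R.min'_mem hR
    set i := R.min' hR with hidef
    have hji : j < i := (Finset.mem_filter.1 hi).2
    have : I.left i = I.left j + I.len j := by
      rw [left_eq, ps_add]
      unfold ps
      refine Finset.sum_congr ?_ fun _ _ => rfl
      ext k
      simp only [Finset.mem_filter, Finset.mem_univ, true_and]
      show k < i ↔ k ≤ j
      constructor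
      · intro hk
        by_contra hkj
        have : k ∈ R := by simp [R]; exact not_le.1 hkj
        exact absurd (R.min'_le k this) (not_le.2 hk)
      · intro hk
        exact lt_of_le_of_lt hk hji
    have hiS : i ∈ S := by
      simp only [S, Finset.mem_filter, Finset.mem_univ, true_and]
      rw [this]
      exact hc
    exact absurd (S.le_max' i hiS) (not_le.2 hji)

theorem piece_subset (j : Fin d) : I.piece j ⊆ Ico 0 1 := by
  intro x hx
  exact ⟨(I.ps_nonneg 1 j).trans hx.1, hx.2.trans_le (I.ps_add_le_one 1 j)⟩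

theorem map_piece {j : Fin d} {x : ℝ} (hx : x ∈ I.piece j) :
    I.map x = x + (I.left' j - I.left j) := by
  unfold map
  rw [Finset.sum_eq_single j]
  · rw [indicator_of_mem hx]
  · intro i _ hij
    rw [indicator_of_notMem]
    intro hi
    exact hij (I.piece_unique hi hx)
  · intro h
    exact absurd (Finset.mem_univ j) h

theorem simple_piece {G : Type} [Group G] (g : Fin d → G) {j : Fin d} {x : ℝ}
    (hx : x ∈ I.piece j) : I.simple g x = g j := by
  have h : ∃ j, x ∈ I.piece j := ⟨j, hx⟩
  unfold simple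
  rw [dif_pos h]
  congr 1
  exact I.piece_unique h.choose_spec hx

theorem map_out {x : ℝ} (hx : x ∉ Ico (0 : ℝ) 1) : I.map x = x := by
  unfold map
  rw [Finset.sum_eq_zero, add_zero]
  intro j _
  rw [indicator_of_notMem]
  exact fun h => hx (I.piece_subset j h)

theorem simple_out {G : Type} [Group G] (g : Fin d → G) {x : ℝ} (hx : x ∉ Ico (0 : ℝ) 1) :
    I.simple g x = 1 := by
  have h : ¬ ∃ j, x ∈ I.piece j := fun ⟨j, hj⟩ => hx (I.piece_subset j hj)
  unfold simple
  rw [dif_neg h]

theorem erg_st (hE : Ergodic I.map leb) : Erg I.st := by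
  intro K hK hinv
  have hpre : I.map ⁻¹' K =ᵐ[leb] K := by
    rw [leb, Filter.EventuallyEq, ae_restrict_iff' measurableSet_Ico]
    have h1 : ∀ᵐ x : ℝ, ∀ a, x ∈ Ioo (I.left a) (I.left a + I.len a) →
        (x ∈ K ↔ x + (I.left' a - I.left a) ∈ K) := ae_all_iff.2 hinv
    have h2 : ∀ᵐ x : ℝ, ∀ a, x ≠ I.left a :=
      ae_all_iff.2 fun a => by
        have : volume ({I.left a} : Set ℝ) = 0 := Real.volume_singleton
        exact (compl_mem_ae_iff.2 this)
    filter_upwards [h1, h2] with x hx1 hx2 hx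
    obtain ⟨j, hj⟩ := I.piece_exists hx
    have hj' : x ∈ Ioo (I.left j) (I.left j + I.len j) :=
      ⟨lt_of_le_of_ne hj.1 (hx2 j).symm, hj.2⟩
    have := hx1 j hj'
    rw [← I.map_piece hj] at this
    exact propext this.symm
  rcases hE.quasiErgodic.ae_mem_or_ae_notMem₀ hK.nullMeasurableSet hpre with h | h
  · right
    rw [leb, ae_restrict_iff' measurableSet_Ico] at h
    refine measure_mono_null ?_ (ae_iff.1 h)
    intro x hx hxx
    exact hx.2 (hxx ⟨hx.1.1.le, hx.1.2⟩)
  · left
    rw [leb, ae_restrict_iff' measurableSet_Ico] at h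
    refine measure_mono_null ?_ (ae_iff.1 h)
    intro x hx hxx
    exact (hxx ⟨hx.1.1.le, hx.1.2⟩) hx.2

theorem ok_st (hE : Ergodic I.map leb) : Ok I.st :=
  ⟨zero_lt_one, I.ps_tile 1, I.ps_tile I.perm, I.erg_st hE⟩

end IET

theorem init : S_INIT := by
  intro d I
  refine ⟨fun x hx => ?_, I.piece_subset, fun j x hx => I.map_piece hx,
    fun G _ g j x hx => I.simple_piece g hx, fun x hx => ⟨I.map_out hx, fun G _ g =>
      I.simple_out g hx⟩, I.ok_st⟩
  obtain ⟨j, hj⟩ := I.piece_exists hx
  exact ⟨j, hj, fun i hi => I.piece_unique hi hj⟩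

end Pool.Agent.W5h52.IE
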