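import Pool.Agent.W5h52.IE.Defs

/-! (A9) a move keeping a given point. -/

open MeasureTheory Set Function Filter Topology

namespace Pool.Agent.W5h52.IE

namespace Keep

/-- a letter filling the whole interval is the only live letter -/
theorem only {A : Type} [Fintype A] [DecidableEq A] {p q : ℝ} {l w : A → ℝ} (h : Tile p q l w)
    {a b : A} (hab : a ≠ b) (ha : w a = q - p) (hb : 0 < w b) : False := by
  have h1 := h.2.2.2
  have h2 : w a + w b ≤ ∑ c, w c := by
    have := Finset.sum_le_sum_of_subset_of_nonneg (f := w) (Finset.subset_univ ({a, b} : Finset A))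
      (fun i _ _ => h.1 i)
    rwa [Finset.sum_pair hab] at this
  linarith

theorem main {A : Type} [Fintype A] [DecidableEq A] {s : St A} {x : ℝ}
    (hp : s.p < s.q) (ht : Tile s.p s.q s.l s.w)
    {a b a' b' : A} (hab : a ≠ b)
    (hb : 0 < s.w b) (ha1 : s.l a + s.w a = s.q)
    (ha2 : s.l a' = s.p) (wa : 0 < s.w a) (wa' : 0 < s.w a') :
    x ≤ s.q - min (s.w a) (s.w b) ∨ s.p + min (s.w a') (s.w b') ≤ x := by
  by_contra hcon
  push Not at hcon
  obtain ⟨h1, h2⟩ := hcon
  have h3 : s.q - s.w a < x := by
    have := min_le_left (s.w a) (s.w b)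
    linarith
  have h4 : x < s.p + s.w a' := by
    have := min_le_left (s.w a') (s.w b')
    linarith
  by_cases haa : a = a'
  · subst haa
    exact only ht hab (by linarith) hb
  · rcases ht.2.2.1 a a' haa wa wa' with h | h
    · linarith
    · linarith

end Keep

open Keep in
theorem keep : S_END → S_SYM → S_NE → S_KEEP := by
  intro hE _ hN A _ _ s x hs hx
  obtain ⟨⟨a, wa, ha⟩, ⟨a', wa', ha'⟩⟩ := hE A s.p s.q s.l s.w hs.lt hs.top
  obtain ⟨⟨b, wb, hb⟩, ⟨b', wb', hb'⟩⟩ := hE A s.p s.q s.m s.w hs.lt hs.bot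
  have hab : a ≠ b := by
    rintro rfl
    exact hN A s hs a wa (by linarith)
  have hab' : a' ≠ b' := by
    rintro rfl
    exact hN A s hs a' wa' (by linarith)
  rcases main (x := x) (b' := b') hs.lt hs.top hab wb ha ha' wa wa' with h | h
  · rcases le_total (s.w b) (s.w a) with hle | hle
    · refine ⟨false, false, a, b, ⟨hab, wb, hle, ha, hb⟩, ?_, ?_⟩
      · exact hx.1.le
      · rw [min_eq_right hle] at h
        exact h
    · refine ⟨false, true, b, a, ⟨hab.symm, wa, hle, hb, ha⟩, ?_, ?_⟩
      · exact hx.1.le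
      · rw [min_eq_left hle] at h
        exact h
  · rcases le_total (s.w b') (s.w a') with hle | hle
    · refine ⟨true, false, a', b', ⟨hab', wb', hle, ?_, ?_⟩, ?_, ?_⟩
      · show -(s.l a' + s.w a') + s.w a' = -s.p
        linarith
      · show -(s.m b' + s.w b') + s.w b' = -s.p
        linarith
      · rw [min_eq_right hle] at h
        show -(-s.p - s.w b') ≤ x
        linarith
      · show x ≤ - -s.q
        linarith [hx.2]
    · refine ⟨true, true, b', a', ⟨hab'.symm, wa', hle, ?_, ?_⟩, ?_, ?_⟩
      · show -(s.m b' + s.w b') + s.w b' = -s.p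
        linarith
      · show -(s.l a' + s.w a') + s.w a' = -s.p
        linarith
      · rw [min_eq_left hle] at h
        show -(-s.p - s.w a') ≤ x
        linarith
      · show x ≤ - -s.q
        linarith [hx.2]

end Pool.Agent.W5h52.IE
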