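import Pool.Agent.W5h52.IE.Fin0

set_option autoImplicit false

/-!
# (C3) The skew products are measure preserving
-/

open MeasureTheory Set Function Filter Topology

namespace Pool.Agent.W5h52.IE

theorem measurable_simple {d : ℕ} (I : IET d) (h1 : ∀ x ∈ Ico (0 : ℝ) 1, ∃! j, x ∈ I.piece j)
    (h2 : ∀ j, I.piece j ⊆ Ico 0 1) {G : Type} [Group G] [MeasurableSpace G] (g : Fin d → G)
    (h3 : ∀ j, ∀ x ∈ I.piece j, I.simple g x = g j)
    (h4 : ∀ x, x ∉ Ico (0 : ℝ) 1 → I.simple g x = 1) : Measurable (I.simple g) := by
  classical
  intro s _
  have h5 : I.simple g ⁻¹' s = (⋃ j, if g j ∈ s then I.piece j else ∅) ∪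
      (if (1 : G) ∈ s then (Ico (0 : ℝ) 1)ᶜ else ∅) := by
    ext x
    rw [mem_preimage, mem_union, mem_iUnion]
    by_cases hx : x ∈ Ico (0 : ℝ) 1
    · obtain ⟨j, hj, hu⟩ := h1 x hx
      rw [h3 j x hj]
      constructor
      · intro h
        exact Or.inl ⟨j, by rw [if_pos h]; exact hj⟩
      · rintro (⟨i, hi⟩ | h)
        · by_cases hgi : g i ∈ s
          · rw [if_pos hgi] at hi
            have := hu i hi
            subst this
            exact hgi
          · rw [if_neg hgi] at hi
            exact absurd hi (notMem_empty x)
        · by_cases h6 : (1 : G) ∈ s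
          · rw [if_pos h6] at h
            exact absurd hx h
          · rw [if_neg h6] at h
            exact absurd h (notMem_empty x)
    · rw [h4 x hx]
      constructor
      · intro h
        refine Or.inr ?_
        rw [if_pos h]
        exact hx
      · rintro (⟨i, hi⟩ | h)
        · by_cases hgi : g i ∈ s
          · rw [if_pos hgi] at hi
            exact absurd (h2 i hi) hx
          · rw [if_neg hgi] at hi
            exact absurd hi (notMem_empty x)
        · by_contra h6
          rw [if_neg h6] at h
          exact notMem_empty x h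
  rw [h5]
  refine MeasurableSet.union (MeasurableSet.iUnion fun j => ?_) ?_
  · split_ifs
    · exact measurableSet_Ico
    · exact MeasurableSet.empty
  · split_ifs
    · exact measurableSet_Ico.compl
    · exact MeasurableSet.empty

/-- (C3) the skew products are measure preserving. -/
theorem mp : S_INIT → S_MP := by
  intro hI G _ _ _ _ _ _ _ _ μ _ _ d I g hE
  obtain ⟨h1, h2, -, h3, h4, -⟩ := hI d I
  have hm := measurable_simple I h1 h2 g (h3 G g) fun x hx => (h4 x hx).2 G g
  have : IsFiniteMeasure leb := by unfold leb; infer_instance
  refine hE.toMeasurePreserving.skew_product (g := fun x y => I.simple g x * y) ?_ ?_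
  · exact (hm.comp measurable_fst).mul measurable_snd
  · exact Filter.Eventually.of_forall fun x => map_mul_left_eq_self μ (I.simple g x)

end Pool.Agent.W5h52.IE
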