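import Pool.Agent.W5h52.IE.Defs

/-! (A5) live letters move. -/

open MeasureTheory Set Function Filter Topology

namespace Pool.Agent.W5h52.IE

theorem ne : S_NE := by
  intro A _ s hs a wa hml
  have hpa := hs.top.2.1 a wa
  have hinv : ∀ c, ∀ᵐ x : ℝ, x ∈ Ioo (s.l c) (s.l c + s.w c) →
      (x ∈ Ioo (s.l a) (s.l a + s.w a / 2) ↔
        x + (s.m c - s.l c) ∈ Ioo (s.l a) (s.l a + s.w a / 2)) := by
    intro c
    refine Eventually.of_forall fun x hx => ?_
    by_cases hca : c = a
    · subst hca
      rw [hml, sub_self, add_zero]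
    · have wc : 0 < s.w c := by
        have := hx.1.trans hx.2
        linarith
      have h1 : ¬ x ∈ Ioo (s.l a) (s.l a + s.w a / 2) := by
        rintro ⟨h2, h3⟩
        rcases hs.top.2.2.1 c a hca wc wa with h | h
        · linarith [hx.2]
        · linarith [hx.1]
      have h2 : ¬ x + (s.m c - s.l c) ∈ Ioo (s.l a) (s.l a + s.w a / 2) := by
        rintro ⟨h2, h3⟩
        rcases hs.bot.2.2.1 c a hca wc wa with h | h
        · rw [hml] at h
          linarith [hx.2]
        · rw [hml] at h
          linarith [hx.1]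
      exact iff_of_false h1 h2
  rcases hs.erg (Ioo (s.l a) (s.l a + s.w a / 2)) measurableSet_Ioo hinv with h | h
  · have hsub : Ioo (s.l a) (s.l a + s.w a / 2) ⊆
        Ioo s.p s.q ∩ Ioo (s.l a) (s.l a + s.w a / 2) := by
      intro x hx
      refine ⟨⟨by linarith [hx.1], by linarith [hx.2]⟩, hx⟩
    have h0 := measure_mono_null hsub h
    rw [Real.volume_Ioo, ENNReal.ofReal_eq_zero] at h0
    linarith
  · have hsub : Ioo (s.l a + s.w a / 2) (s.l a + s.w a) ⊆
        Ioo s.p s.q \ Ioo (s.l a) (s.l a + s.w a / 2) := by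
      intro x hx
      refine ⟨⟨by linarith [hx.1], by linarith [hx.2]⟩, fun h' => ?_⟩
      linarith [hx.1, h'.2]
    have h0 := measure_mono_null hsub h
    rw [Real.volume_Ioo, ENNReal.ofReal_eq_zero] at h0
    linarith

end Pool.Agent.W5h52.IE
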