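import Pool.Agent.W5h52.IE.Defs

/-! Part A: around almost every point there are arbitrarily small balanced nodes. -/

set_option autoImplicit false

open MeasureTheory Set Function Filter Topology

namespace Pool.Agent.W5h52.IE

/-- The moves preserve `Ok`. -/
theorem ok_mv (hT : S_TILE) (hE : S_ERG) (hS : S_SYM) {A : Type} [Fintype A] [DecidableEq A]
    {s : St A} {r t : Bool} {a b : A} (hs : Ok s) (hV : V a b (sy r t s)) : Ok (mv r t a b s) := by
  have h1 : Ok (sy r t s) := hS A s r t hs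
  obtain ⟨h2, h3, h4⟩ := hT A (sy r t s) a b h1.lt h1.top h1.bot hV
  exact hS A _ r t ⟨h2, h3, h4, hE A (sy r t s) a b h1 hV⟩

/-- The node reached by a list of moves. -/
def run {A : Type} [DecidableEq A] (z0 : Nd A) : List (Cd A) → Nd A
  | [] => z0
  | e :: L => step e (run z0 L)

theorem Path.eq_run {A : Type} [DecidableEq A] {z0 : Nd A} {L : List (Cd A)} {z : Nd A}
    (h : Path z0 L z) : z = run z0 L := by
  induction h with
  | nil => rfl
  | cons L z e _ _ ih => rw [ih]; rfl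

/-- (A10) -/
theorem partA : S_TILE → S_ERG → S_SYM → S_SHR → S_BAL → S_KEEP → S_A := by
  intro hT hE hS hSh hB hK A _ _ s0 hs0
  set z0 : Nd A := (s0, fun a => [a]) with hz0
  refine ⟨(range fun L => (run z0 L).1.p) ∪ range fun L => (run z0 L).1.q,
    (countable_range _).union (countable_range _), fun x hx hxZ ρ hρ => ?_⟩
  let X : Type := {y : List (Cd A) × Nd A // Path z0 y.1 y.2 ∧ Ok y.2.1 ∧
    x ∈ Ioo y.2.1.p y.2.1.q}
  have hnext : ∀ y : X, ∃ y' : X, Mv y.1.2.1 y'.1.2.1 := by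
    rintro ⟨⟨L, z⟩, hP, hok, hxz⟩
    obtain ⟨r, t, a, b, hV, hm⟩ := hK A z.1 x hok hxz
    have hP' : Path z0 ((r, t, a, b) :: L) (step (r, t, a, b) z) := Path.cons L z (r, t, a, b) hP hV
    have he : (step (r, t, a, b) z).1 = mv r t a b z.1 := rfl
    have hr := hP'.eq_run
    refine ⟨⟨⟨(r, t, a, b) :: L, step (r, t, a, b) z⟩, hP', ?_, ?_⟩, r, t, a, b, hV, rfl⟩
    · exact ok_mv hT hE hS hok hV
    · refine ⟨lt_of_le_of_ne hm.1 ?_, lt_of_le_of_ne hm.2 ?_⟩
      · intro h
        apply hxZ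
        left
        refine ⟨(r, t, a, b) :: L, ?_⟩
        show (run z0 ((r, t, a, b) :: L)).1.p = x
        rw [← hr]
        exact h
      · intro h
        apply hxZ
        right
        refine ⟨(r, t, a, b) :: L, ?_⟩
        show (run z0 ((r, t, a, b) :: L)).1.q = x
        rw [← hr]
        exact h.symm
  choose next hnext using hnext
  let y0 : X := ⟨([], z0), Path.nil, hs0, hx⟩
  let y : ℕ → X := fun n => next^[n] y0
  have hy : ∀ n, Mv (y n).1.2.1 (y (n + 1)).1.2.1 := by
    intro n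
    have : y (n + 1) = next (y n) := iterate_succ_apply' next n y0
    rw [this]
    exact hnext _
  have hok : ∀ n, Ok (y n).1.2.1 := fun n => (y n).2.2.1
  have h1 := hSh A (fun n => (y n).1.2.1) hok hy
  have h2 : ∀ᶠ n in atTop, (y n).1.2.1.q - (y n).1.2.1.p < ρ := h1.eventually_lt_const hρ
  obtain ⟨N, hN⟩ := eventually_atTop.1 h2
  obtain ⟨n, hn, hbal⟩ := hB A (fun n => (y n).1.2.1) hok hy N
  exact ⟨(y n).1.1, (y n).1.2, (y n).2.1, hok n, (y n).2.2.2, hN n hn, hbal⟩

end Pool.Agent.W5h52.IE
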