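import Pool.Agent.W5h52.IE.Defs

/-! Lemma (B1) for MP_5ca0ff_an: the sets `SE κ η ε` are closed and their measure tends to `0`. -/

open MeasureTheory Set Function Filter Topology

namespace Pool.Agent.W5h52.IE

section
variable {G : Type} [Group G] [TopologicalSpace G] [IsTopologicalGroup G] [CompactSpace G]
  [T2Space G]

/-- The condition on the modulus of continuity, for arbitrary functions. -/
def K0 (κ : C(G, ℝ)) : Set (G → ℝ) :=
  {f | (∀ y y' δ, (∀ z, |κ (y⁻¹ * z) - κ (y'⁻¹ * z)| ≤ δ) → |f y - f y'| ≤ δ) ∧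
    (∀ y δ, (∀ z, |κ z| ≤ δ) → |f y| ≤ δ)}

theorem K0_closed (κ : C(G, ℝ)) : IsClosed (K0 κ) := by
  have h : K0 κ = (⋂ y, ⋂ y', ⋂ δ, ⋂ (_ : ∀ z, |κ (y⁻¹ * z) - κ (y'⁻¹ * z)| ≤ δ),
      {f : G → ℝ | |f y - f y'| ≤ δ}) ∩
      (⋂ y, ⋂ δ, ⋂ (_ : ∀ z, |κ z| ≤ δ), {f : G → ℝ | |f y| ≤ δ}) := by
    ext f; simp [K0]
  rw [h]
  refine IsClosed.inter ?_ ?_
  · refine isClosed_iInter fun y => isClosed_iInter fun y' => isClosed_iInter fun δ =>
      isClosed_iInter fun _ => ?_
    exact isClosed_le (((continuous_apply y).sub (continuous_apply y')).abs) continuous_const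
  · refine isClosed_iInter fun y => isClosed_iInter fun δ =>
      isClosed_iInter fun _ => ?_
    exact isClosed_le ((continuous_apply y).abs) continuous_const

theorem K0_compact (κ : C(G, ℝ)) : IsCompact (K0 κ) := by
  have h : IsCompact (Set.pi univ fun _ : G => Icc (-‖κ‖) ‖κ‖) :=
    isCompact_univ_pi fun _ => isCompact_Icc
  refine h.of_isClosed_subset (K0_closed κ) ?_
  intro f hf y _
  have := hf.2 y ‖κ‖ (fun z => by simpa using κ.norm_coe_le_norm z)
  exact abs_le.1 this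

/-- left translations of `κ` are uniformly continuous in the parameter -/
theorem near (κ : C(G, ℝ)) (y : G) (ε : ℝ) (hε : 0 < ε) :
    ∀ᶠ y' in 𝓝 y, ∀ z, |κ (y⁻¹ * z) - κ (y'⁻¹ * z)| ≤ ε := by
  have hc : Continuous (fun q : G × G => |κ (y⁻¹ * q.2) - κ (q.1⁻¹ * q.2)|) := by
    fun_prop
  have hK : IsCompact (univ : Set G) := isCompact_univ
  have := hK.eventually_forall_of_forall_eventually (x₀ := y)
    (P := fun y' z => |κ (y⁻¹ * z) - κ (y'⁻¹ * z)| < ε) (fun z _ => by
      have h1 : |κ (y⁻¹ * z) - κ (y⁻¹ * z)| < ε := by simpa using hε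
      exact (hc.tendsto (y, z)).eventually (gt_mem_nhds h1))
  filter_upwards [this] with y' hy' z
  exact (hy' z (mem_univ z)).le

theorem K0_cont (κ : C(G, ℝ)) {f : G → ℝ} (hf : f ∈ K0 κ) : Continuous f := by
  rw [continuous_iff_continuousAt]
  intro y
  rw [ContinuousAt, Metric.tendsto_nhds]
  intro ε hε
  filter_upwards [near κ y (ε / 2) (by positivity)] with y' hy'
  have := hf.1 y y' _ hy'
  rw [Real.dist_eq, abs_sub_comm]
  linarith

/-- the same as a set of continuous maps -/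
def KC (κ : C(G, ℝ)) : Set C(G, ℝ) := {v | (v : G → ℝ) ∈ K0 κ}

theorem KC_compact (κ : C(G, ℝ)) : IsCompact (KC κ) := by
  refine ArzelaAscoli.isCompact_of_equicontinuous _ ?_ ?_
  · have : ContinuousMap.toFun '' (KC κ) = K0 κ := by
      ext f
      constructor
      · rintro ⟨v, hv, rfl⟩
        exact hv
      · intro hf
        exact ⟨⟨f, K0_cont κ hf⟩, hf, rfl⟩
    rw [this]
    exact K0_compact κ
  · intro y
    rw [Metric.equicontinuousAt_iff_right]
    intro ε hε
    filter_upwards [near κ y (ε / 2) (by positivity)] with y' hy' v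
    have := v.2.1 y y' _ hy'
    rw [Real.dist_eq]
    show |(v : C(G, ℝ)) y - (v : C(G, ℝ)) y'| < ε
    linarith

theorem osc_closed (η : ℝ) : IsClosed {v : C(G, ℝ) | ∃ y y', η ≤ |v y - v y'|} := by
  have h1 : IsClosed {q : C(G, ℝ) × (G × G) | η ≤ |q.1 q.2.1 - q.1 q.2.2|} := by
    refine isClosed_le continuous_const ?_
    have e : Continuous (fun q : C(G, ℝ) × G => q.1 q.2) := continuous_eval
    exact ((e.comp (continuous_fst.prodMk (continuous_fst.comp continuous_snd))).sub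
      (e.comp (continuous_fst.prodMk (continuous_snd.comp continuous_snd)))).abs
  have h2 := isClosedMap_fst_of_compactSpace (X := C(G, ℝ)) (Y := G × G) _ h1
  convert h2 using 1
  ext v
  simp

theorem CK_eq (κ : C(G, ℝ)) (η : ℝ) :
    CK κ η = KC κ ∩ {v : C(G, ℝ) | ∃ y y', η ≤ |v y - v y'|} := by
  ext v
  simp only [CK, KC, K0, mem_setOf_eq, mem_inter_iff, and_assoc]

theorem CK_compact (κ : C(G, ℝ)) (η : ℝ) : IsCompact (CK κ η) := by
  rw [CK_eq]
  exact (KC_compact κ).inter_right (osc_closed η)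

theorem SE_closed (κ : C(G, ℝ)) (η ε : ℝ) : IsClosed (SE κ η ε) := by
  have e : Continuous (fun q : C(G, ℝ) × G => q.1 q.2) := continuous_eval
  have hT : IsClosed {q : (G × G) × C(G, ℝ) | (∀ y, |q.2 (q.1.1 * y) - q.2 y| ≤ ε) ∧
      ∀ y, |q.2 (q.1.2 * y) - q.2 y| ≤ ε} := by
    have : {q : (G × G) × C(G, ℝ) | (∀ y, |q.2 (q.1.1 * y) - q.2 y| ≤ ε) ∧
      ∀ y, |q.2 (q.1.2 * y) - q.2 y| ≤ ε} =
      (⋂ y, {q : (G × G) × C(G, ℝ) | |q.2 (q.1.1 * y) - q.2 y| ≤ ε}) ∩
      (⋂ y, {q : (G × G) × C(G, ℝ) | |q.2 (q.1.2 * y) - q.2 y| ≤ ε}) := by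
      ext q; simp
    rw [this]
    refine IsClosed.inter (isClosed_iInter fun y => ?_) (isClosed_iInter fun y => ?_)
    · refine isClosed_le ?_ continuous_const
      exact ((e.comp (continuous_snd.prodMk ((continuous_fst.comp continuous_fst).mul
        continuous_const))).sub (e.comp (continuous_snd.prodMk continuous_const))).abs
    · refine isClosed_le ?_ continuous_const
      exact ((e.comp (continuous_snd.prodMk ((continuous_snd.comp continuous_fst).mul
        continuous_const))).sub (e.comp (continuous_snd.prodMk continuous_const))).abs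
  have hC : IsCompact (((univ : Set (G × G)) ×ˢ CK κ η) ∩
      {q : (G × G) × C(G, ℝ) | (∀ y, |q.2 (q.1.1 * y) - q.2 y| ≤ ε) ∧
      ∀ y, |q.2 (q.1.2 * y) - q.2 y| ≤ ε}) :=
    (isCompact_univ.prod (CK_compact κ η)).inter_right hT
  have := (hC.image continuous_fst).isClosed
  convert this using 1
  ext z
  simp only [SE, mem_setOf_eq, mem_image, mem_inter_iff, mem_prod, mem_univ, true_and]
  constructor
  · rintro ⟨v, hv, h1, h2⟩
    exact ⟨(z, v), ⟨hv, h1, h2⟩, rfl⟩
  · rintro ⟨⟨z', v⟩, ⟨hv, h1, h2⟩, rfl⟩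
    exact ⟨v, hv, h1, h2⟩

theorem SE_mono (κ : C(G, ℝ)) (η : ℝ) {ε ε' : ℝ} (h : ε ≤ ε') : SE κ η ε ⊆ SE κ η ε' := by
  rintro z ⟨v, hv, h1, h2⟩
  exact ⟨v, hv, fun y => (h1 y).trans h, fun y => (h2 y).trans h⟩

theorem SE_inter (κ : C(G, ℝ)) (η : ℝ) (hη : 0 < η) (z : G × G)
    (hz : ∀ n : ℕ, z ∈ SE κ η (1 / (n + 1))) :
    ¬ Dense (Subgroup.closure ({z.1, z.2} : Set G) : Set G) := by
  intro hd
  choose v hv h1 h2 using hz
  obtain ⟨w, hw, φ, hφ, hlim⟩ := (CK_compact κ η).tendsto_subseq hv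
  have hpt : ∀ y, Tendsto (fun n => v (φ n) y) atTop (𝓝 (w y)) := fun y =>
    ((continuous_eval_const y).tendsto w).comp hlim
  have h0 : Tendsto (fun n => (1 : ℝ) / ((φ n : ℕ) + 1)) atTop (𝓝 0) :=
    tendsto_one_div_add_atTop_nhds_zero_nat.comp hφ.tendsto_atTop
  have hw1 : ∀ y, w (z.1 * y) = w y := by
    intro y
    have := le_of_tendsto_of_tendsto (((hpt (z.1 * y)).sub (hpt y)).abs) h0
      (Eventually.of_forall fun n => h1 (φ n) y)
    have h3 := abs_nonpos_iff.1 this
    linarith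
  have hw2 : ∀ y, w (z.2 * y) = w y := by
    intro y
    have := le_of_tendsto_of_tendsto (((hpt (z.2 * y)).sub (hpt y)).abs) h0
      (Eventually.of_forall fun n => h2 (φ n) y)
    have h3 := abs_nonpos_iff.1 this
    linarith
  let H : Subgroup G :=
    { carrier := {g | ∀ y, w (g * y) = w y}
      mul_mem' := by
        intro a b ha hb y
        show w (a * b * y) = w y
        rw [mul_assoc, ha, hb]
      one_mem' := by intro y; show w (1 * y) = w y; rw [one_mul]
      inv_mem' := by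
        intro a ha y
        show w (a⁻¹ * y) = w y
        rw [← ha (a⁻¹ * y), mul_inv_cancel_left] }
  have hH : Subgroup.closure ({z.1, z.2} : Set G) ≤ H := by
    rw [Subgroup.closure_le]
    rintro g (rfl | rfl)
    · exact hw1
    · exact hw2
  have hcl : IsClosed (H : Set G) := by
    have : (H : Set G) = ⋂ y, {g | w (g * y) = w y} := by
      ext g
      simp only [mem_iInter, mem_setOf_eq]
      rfl
    rw [this]
    exact isClosed_iInter fun y => isClosed_eq
      (w.continuous.comp (continuous_id.mul continuous_const)) continuous_const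
  have hall : ∀ g : G, g ∈ (H : Set G) := by
    intro g
    have h3 : closure ((Subgroup.closure ({z.1, z.2} : Set G) : Set G)) ⊆ (H : Set G) :=
      closure_minimal hH hcl
    exact h3 (hd g)
  obtain ⟨y, y', hy⟩ := hw.2.2
  have e1 : ∀ g, w g = w 1 := by
    intro g
    have := hall g 1
    rwa [mul_one] at this
  rw [e1 y, e1 y', sub_self, abs_zero] at hy
  linarith

end

theorem se : S_SE := by
  intro G _ _ _ _ _ _ _ _ μ _ hd κ η hη
  refine ⟨SE_closed κ η, ?_⟩
  have hanti : Antitone (fun n : ℕ => SE κ η (1 / ((n : ℝ) + 1))) := by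
    intro m n hmn
    refine SE_mono κ η ?_
    have : (m : ℝ) ≤ n := by exact_mod_cast hmn
    apply one_div_le_one_div_of_le <;> [positivity; linarith]
  have h1 := tendsto_measure_iInter_atTop (μ := μ.prod μ)
    (s := fun n : ℕ => SE κ η (1 / ((n : ℝ) + 1)))
    (fun n => (SE_closed κ η _).measurableSet.nullMeasurableSet) hanti ⟨0, measure_ne_top _ _⟩
  have h2 : (μ.prod μ) (⋂ n : ℕ, SE κ η (1 / ((n : ℝ) + 1))) = 0 := by
    refine measure_mono_null ?_ (ae_iff.1 hd)
    intro z hz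
    exact SE_inter κ η hη z (fun n => mem_iInter.1 hz n)
  rwa [h2] at h1

end Pool.Agent.W5h52.IE
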