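import Pool.Agent.W5h52.IE.Basic

open MeasureTheory Set Function Filter Topology

set_option linter.all false
namespace Pool.Agent.W5h52.IE
variable {A : Type}

lemma null_inter [Fintype A] [DecidableEq A] {l w : A → ℝ} (S : Finset A) (P Q : ℝ)
    (hdisj : ∀ a b, a ≠ b → 0 < w a → 0 < w b → l a + w a ≤ l b ∨ l b + w b ≤ l a)
    (hS : ∀ a ∈ S, 0 < w a ∧ P ≤ l a ∧ l a + w a ≤ Q) (hPQ : P ≤ Q)
    (hsum : ∑ a ∈ S, w a = Q - P) (c : A) (hc : c ∉ S) (hwc : 0 < w c) :
    volume (Ioo (l c) (l c + w c) ∩ Ioo P Q) = 0 := by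
  have hd : ∀ a b, a ≠ b → 0 < w a → 0 < w b →
      Disjoint (Ioo (l a) (l a + w a)) (Ioo (l b) (l b + w b)) := by
    intro a b hab ha hb
    rw [Set.disjoint_left]
    intro x hx hx'
    rcases hdisj a b hab ha hb with h | h
    · linarith [hx.1, hx.2, hx'.1, hx'.2]
    · linarith [hx.1, hx.2, hx'.1, hx'.2]
  set U := ⋃ a ∈ S, Ioo (l a) (l a + w a) with hU
  have hUm : MeasurableSet U := Finset.measurableSet_biUnion _ fun _ _ => measurableSet_Ioo
  have hvolU : volume U = ENNReal.ofReal (Q - P) := by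
    rw [hU, measure_biUnion_finset]
    · rw [← hsum, ENNReal.ofReal_sum_of_nonneg]
      · apply Finset.sum_congr rfl
        intro a _
        rw [Real.volume_Ioo]; congr 1; ring
      · intro a ha; exact (hS a ha).1.le
    · intro a ha b hb hab
      exact hd a b hab (hS a ha).1 (hS b hb).1
    · intro _ _; exact measurableSet_Ioo
  have hUsub : U ⊆ Ioo P Q := by
    intro x hx
    simp only [hU, mem_iUnion, exists_prop] at hx
    obtain ⟨a, ha, hx⟩ := hx
    exact ⟨lt_of_le_of_lt (hS a ha).2.1 hx.1, lt_of_lt_of_le hx.2 (hS a ha).2.2⟩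
  have hnull : volume (Ioo P Q \ U) = 0 := by
    rw [measure_diff hUsub hUm.nullMeasurableSet (by rw [hvolU]; exact ENNReal.ofReal_ne_top),
      hvolU, Real.volume_Ioo, tsub_self]
  apply measure_mono_null _ hnull
  rintro x ⟨hx1, hx2⟩
  refine ⟨hx2, ?_⟩
  simp only [hU, mem_iUnion, exists_prop, not_exists, not_and]
  intro a ha hxa
  have : c ≠ a := fun h => hc (h ▸ ha)
  exact (Set.disjoint_left.mp (hd c a this hwc (hS a ha).1)) hx1 hxa

/-- If the widths of the live letters in a set `S` fill `[P,Q]` on both sides then `Erg` gives a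
contradiction unless `[P,Q]` is everything. -/
lemma no_inv [Fintype A] [DecidableEq A] {s : St A} (hs : Ok s) (S : Finset A) (P Q : ℝ)
    (hPQ : P < Q) (hp : s.p ≤ P) (hq : Q ≤ s.q)
    (hS : ∀ a ∈ S, 0 < s.w a ∧ P ≤ s.l a ∧ s.l a + s.w a ≤ Q ∧ P ≤ s.m a ∧ s.m a + s.w a ≤ Q)
    (hsum : ∑ a ∈ S, s.w a = Q - P) : Q - P = s.q - s.p := by
  have hK := hs.erg (Ioo P Q) measurableSet_Ioo ?_
  · rcases hK with h | h
    · exfalso
      have hsub : Ioo P Q ⊆ Ioo s.p s.q ∩ Ioo P Q := fun x hx =>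
        ⟨⟨lt_of_le_of_lt hp hx.1, lt_of_lt_of_le hx.2 hq⟩, hx⟩
      have h2 := measure_mono_null hsub h
      rw [Real.volume_Ioo] at h2
      have := ENNReal.ofReal_eq_zero.mp h2
      linarith
    · have hsub : Ioo P Q ⊆ Ioo s.p s.q := fun x hx =>
        ⟨lt_of_le_of_lt hp hx.1, lt_of_lt_of_le hx.2 hq⟩
      rw [measure_diff hsub measurableSet_Ioo.nullMeasurableSet
        (by rw [Real.volume_Ioo]; exact ENNReal.ofReal_ne_top), Real.volume_Ioo, Real.volume_Ioo,
        ← ENNReal.ofReal_sub _ (by linarith)] at h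
      have := ENNReal.ofReal_eq_zero.mp h
      linarith
  · intro a
    by_cases ha : a ∈ S
    · obtain ⟨h1, h2, h3, h4, h5⟩ := hS a ha
      refine Filter.Eventually.of_forall fun x hx => ?_
      constructor
      · intro _
        exact ⟨by linarith [hx.1], by linarith [hx.2]⟩
      · intro _
        exact ⟨by linarith [hx.1], by linarith [hx.2]⟩
    · by_cases hw : 0 < s.w a
      · have n1 := null_inter S P Q hs.top.2.2.1 (fun b hb => ⟨(hS b hb).1, (hS b hb).2.1,
          (hS b hb).2.2.1⟩) hPQ.le hsum a ha hw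
        have n2 := null_inter S P Q hs.bot.2.2.1 (fun b hb => ⟨(hS b hb).1, (hS b hb).2.2.2.1,
          (hS b hb).2.2.2.2⟩) hPQ.le hsum a ha hw
        have e1 : ∀ᵐ x : ℝ, x ∉ Ioo (s.l a) (s.l a + s.w a) ∩ Ioo P Q :=
          measure_eq_zero_iff_ae_notMem.mp n1
        have e2 : ∀ᵐ x : ℝ, x ∉ Ioo (s.m a) (s.m a + s.w a) ∩ Ioo P Q :=
          measure_eq_zero_iff_ae_notMem.mp n2
        have e3 : ∀ᵐ x : ℝ, x + (s.m a - s.l a) ∉ Ioo (s.m a) (s.m a + s.w a) ∩ Ioo P Q :=
          (measurePreserving_add_right volume (s.m a - s.l a)).quasiMeasurePreserving.ae e2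
        filter_upwards [e1, e3] with x hx1 hx3 hx
        constructor
        · intro h; exact absurd ⟨hx, h⟩ hx1
        · intro h
          exact absurd (show x + (s.m a - s.l a) ∈ Ioo (s.m a) (s.m a + s.w a) ∩ Ioo P Q from
            ⟨⟨by linarith [hx.1], by linarith [hx.2]⟩, h⟩) hx3
      · refine Filter.Eventually.of_forall fun x hx => ?_
        exact absurd (hx.1.trans hx.2) (by linarith)

theorem shr (hwin : S_WIN) (hsym : S_SYM) : S_SHR := by
  intro A _ _ s hok hmv
  choose r t x y hV hs using hmv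
  have F : ∀ n, MvFacts (x n) (y n) (s n) (s (n + 1)) := by
    intro n
    have := mvFacts (hV n)
    rw [← hs n] at this
    exact this
  set d : ℕ → ℝ := fun n => (s n).q - (s n).p with hd
  have hd1 : ∀ n, d (n + 1) = d n - (s n).w (y n) := fun n => (F n).d'
  have hd0 : ∀ n, 0 < d n := fun n => sub_pos.mpr (hok n).lt
  have hdanti : StrictAnti d := strictAnti_nat_of_succ_lt fun n => by
    rw [hd1]; linarith [(F n).wb]
  obtain ⟨L, hL⟩ : ∃ L, Tendsto d atTop (𝓝 L) := by
    refine ⟨_, tendsto_atTop_ciInf hdanti.antitone ⟨0, ?_⟩⟩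
    rintro _ ⟨n, rfl⟩; exact (hd0 n).le
  have hLle : ∀ n, L < d n := fun n => by
    have h1 : L ≤ d (n + 1) := hdanti.antitone.le_of_tendsto hL (n + 1)
    exact lt_of_le_of_lt h1 (hdanti (Nat.lt_succ_self n))
  have hL0 : 0 ≤ L := ge_of_tendsto' hL fun n => (hd0 n).le
  rcases hL0.eq_or_lt with h0 | hLpos
  · rw [← h0] at hL; exact hL
  exfalso
  -- widths
  have hwn : ∀ n a, 0 ≤ (s n).w a := fun n a => (hok n).top.1 a
  have hwanti : ∀ a, Antitone fun n => (s n).w a := by
    intro a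
    refine antitone_nat_of_succ_le fun n => ?_
    rw [(F n).w']
    by_cases h : a = x n
    · subst h; simp; exact (F n).wb.le
    · simp [h]
  have hlam : ∀ a, ∃ v, Tendsto (fun n => (s n).w a) atTop (𝓝 v) := fun a =>
    ⟨_, tendsto_atTop_ciInf (hwanti a) ⟨0, by rintro _ ⟨n, rfl⟩; exact hwn n a⟩⟩
  choose lam hlam using hlam
  have hlamle : ∀ n a, lam a ≤ (s n).w a := fun n a => (hwanti a).le_of_tendsto (hlam a) n
  have hlam0 : ∀ a, 0 ≤ lam a := fun a => ge_of_tendsto' (hlam a) fun n => hwn n a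
  set S : Finset A := Finset.univ.filter fun a => 0 < lam a with hS
  -- the losers are small
  have hcut : Tendsto (fun n => (s n).w (y n)) atTop (𝓝 0) := by
    have h1 : Tendsto (fun n => d n - d (n + 1)) atTop (𝓝 (L - L)) :=
      hL.sub (hL.comp (tendsto_add_atTop_nat 1))
    rw [sub_self] at h1
    refine h1.congr fun n => ?_
    rw [hd1]; ring
  have hN1 : ∃ N, ∀ n, N ≤ n → ∀ a ∈ S, y n ≠ a := by
    have : ∀ a ∈ S, ∀ᶠ n in atTop, y n ≠ a := by
      intro a ha
      have ha' : 0 < lam a := (Finset.mem_filter.mp ha).2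
      filter_upwards [hcut.eventually (gt_mem_nhds ha')] with n hn h
      rw [h] at hn
      linarith [hlamle n a]
    have h2 : ∀ᶠ n in atTop, ∀ a ∈ S, y n ≠ a := (Finset.eventually_all S).mpr this
    exact eventually_atTop.mp h2
  obtain ⟨N, hN⟩ := hN1
  have hSpos : ∀ a ∈ S, ∀ n, 0 < (s n).w a := fun a ha n =>
    lt_of_lt_of_le (Finset.mem_filter.mp ha).2 (hlamle n a)
  -- finitely many wins
  have hwins : ∀ a ∈ S, ∀ r0 t0 : Bool, ∃ M, ∀ n, M ≤ n → ¬ (r n = r0 ∧ t n = t0 ∧ x n = a) := by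
    intro a ha r0 t0
    obtain ⟨M, hM⟩ := hwin A (fun n => sy r0 t0 (s (n + N))) (fun n => xor r0 (r (n + N)))
      (fun n => xor t0 (t (n + N))) (fun n => x (n + N)) (fun n => y (n + N))
      (fun n => hsym A _ _ _ (hok _)) (fun n => V_sy _ _ _ _ _ _ _ (hV _))
      (fun n => by
        rw [← mv_sy, ← hs (n + N)]
        congr 2; ring)
      a (fun n => hN (n + N) (by omega) a ha) (fun n => by rw [sy_w]; exact hSpos a ha _)
    refine ⟨M + N, fun n hn h => ?_⟩
    have := hM (n - N) (by omega)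
    rw [show n - N + N = n by omega] at this
    apply this
    refine ⟨?_, ?_, h.2.2⟩
    · rw [h.1]; simp
    · rw [h.2.1]; simp
  have hM : ∃ M, ∀ n, M ≤ n → ∀ a ∈ S, x n ≠ a := by
    have : ∀ a ∈ S, ∀ᶠ n in atTop, x n ≠ a := by
      intro a ha
      have h4 : ∀ r0 t0 : Bool, ∀ᶠ n in atTop, ¬ (r n = r0 ∧ t n = t0 ∧ x n = a) := by
        intro r0 t0
        obtain ⟨M, hM⟩ := hwins a ha r0 t0
        exact eventually_atTop.mpr ⟨M, hM⟩
      filter_upwards [h4 false false, h4 false true, h4 true false, h4 true true]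
        with n h1 h2 h3 h5 hx
      rcases hr : r n <;> rcases ht : t n
      · exact h1 ⟨hr, ht, hx⟩
      · exact h2 ⟨hr, ht, hx⟩
      · exact h3 ⟨hr, ht, hx⟩
      · exact h5 ⟨hr, ht, hx⟩
    have h2 : ∀ᶠ n in atTop, ∀ a ∈ S, x n ≠ a := (Finset.eventually_all S).mpr this
    exact eventually_atTop.mp h2
  obtain ⟨M, hM⟩ := hM
  set K := max N M with hK
  -- constancy
  have hconst : ∀ a ∈ S, ∀ n, (s (K + n)).l a = (s K).l a ∧ (s (K + n)).m a = (s K).m a ∧
      (s (K + n)).w a = (s K).w a := by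
    intro a ha n
    induction n with
    | zero => exact ⟨rfl, rfl, rfl⟩
    | succ n ih =>
      have hx : a ≠ x (K + n) := (hM (K + n) (by omega) a ha).symm
      have hy : a ≠ y (K + n) := (hN (K + n) (by omega) a ha).symm
      have h := (F (K + n)).oth a hx hy
      have hw := (F (K + n)).w'
      rw [← add_assoc]
      refine ⟨by rw [h.1, ih.1], by rw [h.2, ih.2.1], ?_⟩
      rw [hw, update_of_ne hx, ih.2.2]
  have hlamK : ∀ a ∈ S, lam a = (s K).w a := by
    intro a ha
    have h1 : Tendsto (fun n => (s (K + n)).w a) atTop (𝓝 (lam a)) := by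
      have := (hlam a).comp (tendsto_add_atTop_nat K)
      refine this.congr fun n => ?_
      simp [add_comm]
    have h2 : Tendsto (fun n => (s (K + n)).w a) atTop (𝓝 ((s K).w a)) := by
      refine tendsto_const_nhds.congr fun n => ?_
      rw [(hconst a ha n).2.2]
    exact tendsto_nhds_unique h1 h2
  -- sum of the limits
  have hsumL : ∑ a, lam a = L := by
    have h1 : Tendsto (fun n => ∑ a, (s n).w a) atTop (𝓝 (∑ a, lam a)) :=
      tendsto_finset_sum _ fun a _ => hlam a
    have h2 : Tendsto (fun n => ∑ a, (s n).w a) atTop (𝓝 L) := by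
      refine hL.congr fun n => ?_
      exact ((hok n).top.2.2.2).symm
    exact tendsto_nhds_unique h1 h2
  have hsumS : ∑ a ∈ S, (s K).w a = L := by
    rw [← hsumL, ← Finset.sum_congr rfl hlamK, hS, Finset.sum_filter]
    apply Finset.sum_congr rfl
    intro a _
    split_ifs with h
    · rfl
    · exact (le_antisymm (not_lt.mp h) (hlam0 a)).symm
  -- limits of the end points
  have hpmono : Monotone fun n => (s n).p := monotone_nat_of_le_succ fun n => (F n).p'
  have hqanti : Antitone fun n => (s n).q := antitone_nat_of_succ_le fun n => (F n).q'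
  have hple : ∀ n, (s n).p ≤ (s 0).q := fun n => (hok n).lt.le.trans (hqanti (Nat.zero_le n))
  obtain ⟨P, hP⟩ : ∃ P, Tendsto (fun n => (s n).p) atTop (𝓝 P) :=
    ⟨_, tendsto_atTop_ciSup hpmono ⟨(s 0).q, by rintro _ ⟨n, rfl⟩; exact hple n⟩⟩
  have hQ : Tendsto (fun n => (s n).q) atTop (𝓝 (P + L)) := by
    refine (hP.add hL).congr fun n => ?_
    simp [hd]
  have hPle : ∀ n, (s n).p ≤ P := fun n => hpmono.ge_of_tendsto hP n
  have hQle : ∀ n, P + L ≤ (s n).q := fun n => hqanti.le_of_tendsto hQ n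
  have key := no_inv (hok K) S P (P + L) (by linarith) (hPle K) (hQle K) (by
    intro a ha
    have hl : ∀ n, (s (K + n)).p ≤ (s K).l a ∧ (s K).l a + (s K).w a ≤ (s (K + n)).q := by
      intro n
      have h := (hok (K + n)).top.2.1 a (hSpos a ha _)
      rw [(hconst a ha n).1, (hconst a ha n).2.2] at h
      exact h
    have hm : ∀ n, (s (K + n)).p ≤ (s K).m a ∧ (s K).m a + (s K).w a ≤ (s (K + n)).q := by
      intro n
      have h := (hok (K + n)).bot.2.1 a (hSpos a ha _)
      rw [(hconst a ha n).2.1, (hconst a ha n).2.2] at h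
      exact h
    have hP' : Tendsto (fun n => (s (K + n)).p) atTop (𝓝 P) := by
      refine (hP.comp (tendsto_add_atTop_nat K)).congr fun n => ?_
      simp [add_comm]
    have hQ' : Tendsto (fun n => (s (K + n)).q) atTop (𝓝 (P + L)) := by
      refine (hQ.comp (tendsto_add_atTop_nat K)).congr fun n => ?_
      simp [add_comm]
    exact ⟨hSpos a ha K, le_of_tendsto' hP' fun n => (hl n).1, ge_of_tendsto' hQ' fun n => (hl n).2,
      le_of_tendsto' hP' fun n => (hm n).1, ge_of_tendsto' hQ' fun n => (hm n).2⟩)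
    (by rw [hsumS]; ring)
  have := hLle K
  simp only [hd] at this
  linarith

end Pool.Agent.W5h52.IE
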