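import Pool.Agent.W5h52.IE.Defs

/-! The smoothing of a measurable set by a continuous kernel on the group. -/

open MeasureTheory Set Function Filter Topology

namespace Pool.Agent.W5h52.IE

theorem sm : S_SM := by
  intro G _ _ _ _ _ _ _ _ μ _ _ κ E hE
  set χ : ℝ → G → ℝ := fun x z => E.indicator (fun _ => (1 : ℝ)) (x, z) with hχ
  have hχm : Measurable fun p : ℝ × G => χ p.1 p.2 := measurable_const.indicator hE
  have hχx : ∀ x, Measurable (χ x) := fun x => hχm.comp measurable_prodMk_left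
  have hχ0 : ∀ x z, |χ x z| ≤ 1 := by
    intro x z
    simp only [hχ, indicator]
    split_ifs <;> simp
  have hB : ∀ z, |κ z| ≤ ‖κ‖ := fun z => κ.norm_coe_le_norm z
  -- left invariance
  have hinv : ∀ x y, ∫ z, χ x (y * z) * κ z ∂μ = ∫ z, χ x z * κ (y⁻¹ * z) ∂μ := by
    intro x y
    rw [← integral_mul_left_eq_self (μ := μ) (fun z => χ x z * κ (y⁻¹ * z)) y]
    simp
  have hmz : ∀ x y, Measurable fun z => χ x z * κ (y⁻¹ * z) := fun x y =>
    (hχx x).mul (κ.continuous.measurable.comp (measurable_const_mul y⁻¹))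
  have hle : ∀ x y z, |χ x z * κ (y⁻¹ * z)| ≤ ‖κ‖ := by
    intro x y z
    rw [abs_mul]
    calc |χ x z| * |κ (y⁻¹ * z)| ≤ 1 * ‖κ‖ :=
          mul_le_mul (hχ0 x z) (hB _) (abs_nonneg _) zero_le_one
      _ = ‖κ‖ := one_mul _
  have hint : ∀ x y, Integrable (fun z => χ x z * κ (y⁻¹ * z)) μ := fun x y =>
    Integrable.of_bound (hmz x y).aestronglyMeasurable ‖κ‖ (Eventually.of_forall fun z => by
      rw [Real.norm_eq_abs]
      exact hle x y z)
  have hcont : ∀ x, Continuous fun y => ∫ z, χ x (y * z) * κ z ∂μ := by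
    intro x
    simp_rw [hinv]
    refine continuous_of_dominated (bound := fun _ => ‖κ‖)
      (fun y => (hmz x y).aestronglyMeasurable) (fun y => Eventually.of_forall fun z => by
        rw [Real.norm_eq_abs]
        exact hle x y z) (integrable_const _) (Eventually.of_forall fun z => ?_)
    exact continuous_const.mul (κ.continuous.comp (by fun_prop))
  refine ⟨fun x => ⟨fun y => ∫ z, χ x (y * z) * κ z ∂μ, hcont x⟩, fun x y => rfl, ?_, ?_, ?_⟩
  · intro y
    have h1 : Measurable (uncurry fun (x : ℝ) (z : G) => χ x (y * z) * κ z) := by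
      refine Measurable.mul ?_ (κ.continuous.measurable.comp measurable_snd)
      exact hχm.comp (measurable_fst.prodMk ((measurable_const_mul y).comp measurable_snd))
    exact (h1.stronglyMeasurable.integral_prod_right (ν := μ)).measurable
  · intro x y y' δ hδ
    change |(∫ z, χ x (y * z) * κ z ∂μ) - ∫ z, χ x (y' * z) * κ z ∂μ| ≤ δ
    rw [hinv, hinv, ← integral_sub (hint x y) (hint x y')]
    have h1 : ∀ᵐ z ∂μ, ‖χ x z * κ (y⁻¹ * z) - χ x z * κ (y'⁻¹ * z)‖ ≤ δ := by
      refine Eventually.of_forall fun z => ?_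
      rw [← mul_sub, Real.norm_eq_abs, abs_mul]
      calc |χ x z| * |κ (y⁻¹ * z) - κ (y'⁻¹ * z)| ≤ 1 * δ :=
            mul_le_mul (hχ0 x z) (hδ z) (abs_nonneg _) zero_le_one
        _ = δ := one_mul _
    have h2 := norm_integral_le_of_norm_le_const h1
    simpa using h2
  · intro x y δ hδ
    change |∫ z, χ x (y * z) * κ z ∂μ| ≤ δ
    have h1 : ∀ᵐ z ∂μ, ‖χ x (y * z) * κ z‖ ≤ δ := by
      refine Eventually.of_forall fun z => ?_
      rw [Real.norm_eq_abs, abs_mul]
      calc |χ x (y * z)| * |κ z| ≤ 1 * δ :=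
            mul_le_mul (hχ0 x _) (hδ z) (abs_nonneg _) zero_le_one
        _ = δ := one_mul _
    have h2 := norm_integral_le_of_norm_le_const h1
    simpa using h2

end Pool.Agent.W5h52.IE
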