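import Pool.Agent.W5h52.IE.Basic

/-! (A4): the symmetries preserve `Ok`. -/

open MeasureTheory Set Function Filter Topology

namespace Pool.Agent.W5h52.IE

theorem sy_sy {A : Type} (r t r' t' : Bool) (s : St A) :
    sy r t (sy r' t' s) = sy (xor r r') (xor t t') s := sy_comp r t r' t' s

theorem erg_sw {A : Type} {s : St A} (h : Erg s) : Erg (sw s) := by
  intro K hK hinv
  refine h K hK fun a => ?_
  have h1 : ∀ᵐ x : ℝ, x ∈ Ioo (s.m a) (s.m a + s.w a) → (x ∈ K ↔ x + (s.l a - s.m a) ∈ K) :=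
    hinv a
  have h2 := (measurePreserving_add_right volume (s.m a - s.l a)).quasiMeasurePreserving.ae h1
  filter_upwards [h2] with x hx hxI
  have h3 := hx ⟨by linarith [hxI.1], by linarith [hxI.2]⟩
  have e : x + (s.m a - s.l a) + (s.l a - s.m a) = x := by ring
  rw [e] at h3
  exact h3.symm

theorem erg_rf {A : Type} {s : St A} (h : Erg s) : Erg (rf s) := by
  intro K hK hinv
  have hK' : MeasurableSet (Neg.neg ⁻¹' K : Set ℝ) := measurable_neg hK
  have h0 : ∀ a, ∀ᵐ x : ℝ, x ∈ Ioo (s.l a) (s.l a + s.w a) →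
      (x ∈ (Neg.neg ⁻¹' K : Set ℝ) ↔ x + (s.m a - s.l a) ∈ (Neg.neg ⁻¹' K : Set ℝ)) := by
    intro a
    have h1 : ∀ᵐ x : ℝ, x ∈ Ioo (-(s.l a + s.w a)) (-(s.l a + s.w a) + s.w a) →
        (x ∈ K ↔ x + (-(s.m a + s.w a) - -(s.l a + s.w a)) ∈ K) := hinv a
    have h2 := (Measure.measurePreserving_neg (volume : Measure ℝ)).quasiMeasurePreserving.ae h1
    filter_upwards [h2] with x hx hxI
    have h3 := hx ⟨by linarith [hxI.2], by linarith [hxI.1]⟩
    have e : -x + (-(s.m a + s.w a) - -(s.l a + s.w a)) = -(x + (s.m a - s.l a)) := by ring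
    rw [e] at h3
    exact h3
  have e1 : (Neg.neg ⁻¹' (Ioo (-s.q) (-s.p) ∩ K) : Set ℝ) = Ioo s.p s.q ∩ (Neg.neg ⁻¹' K) := by
    ext x
    simp only [mem_preimage, mem_inter_iff, mem_Ioo, neg_lt_neg_iff]
    tauto
  have e2 : (Neg.neg ⁻¹' (Ioo (-s.q) (-s.p) \ K) : Set ℝ) = Ioo s.p s.q \ (Neg.neg ⁻¹' K) := by
    ext x
    simp only [mem_preimage, mem_diff, mem_Ioo, neg_lt_neg_iff]
    tauto
  change volume (Ioo (-s.q) (-s.p) ∩ K) = 0 ∨ volume (Ioo (-s.q) (-s.p) \ K) = 0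
  rcases h _ hK' h0 with h1 | h1
  · left
    rw [← e1] at h1
    rwa [(Measure.measurePreserving_neg (volume : Measure ℝ)).measure_preimage
      (measurableSet_Ioo.inter hK).nullMeasurableSet] at h1
  · right
    rw [← e2] at h1
    rwa [(Measure.measurePreserving_neg (volume : Measure ℝ)).measure_preimage
      (measurableSet_Ioo.diff hK).nullMeasurableSet] at h1

theorem tile_rf {A : Type} [Fintype A] {p q : ℝ} {l w : A → ℝ} (h : Tile p q l w) :
    Tile (-q) (-p) (fun a => -(l a + w a)) w := by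
  obtain ⟨h0, h1, h2, h3⟩ := h
  refine ⟨h0, fun a ha => ?_, fun a b hab ha hb => ?_, by rw [h3]; ring⟩
  · have := h1 a ha
    constructor
    · show -q ≤ -(l a + w a)
      linarith [this.2]
    · show -(l a + w a) + w a ≤ -p
      linarith [this.1]
  · show -(l a + w a) + w a ≤ -(l b + w b) ∨ -(l b + w b) + w b ≤ -(l a + w a)
    rcases h2 a b hab ha hb with h | h
    · right; linarith
    · left; linarith

theorem ok_sw {A : Type} [Fintype A] {s : St A} (h : Ok s) : Ok (sw s) :=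
  ⟨h.lt, h.bot, h.top, erg_sw h.erg⟩

theorem ok_rf {A : Type} [Fintype A] {s : St A} (h : Ok s) : Ok (rf s) :=
  ⟨neg_lt_neg h.lt, tile_rf h.top, tile_rf h.bot, erg_rf h.erg⟩

theorem sym : S_SYM := by
  intro A _ s r t h
  cases r <;> cases t
  · exact h
  · exact ok_sw h
  · exact ok_rf h
  · exact ok_rf (ok_sw h)

theorem okMb (hT : S_TILE) (hE : S_ERG) {A : Type} [Fintype A] [DecidableEq A] {s : St A}
    {a b : A} (h : Ok s) (hV : V a b s) : Ok (mb a b s) := by
  obtain ⟨h1, h2, h3⟩ := hT A s a b h.lt h.top h.bot hV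
  exact ⟨h1, h2, h3, hE A s a b h hV⟩

theorem okMv (hT : S_TILE) (hE : S_ERG) {A : Type} [Fintype A] [DecidableEq A] {s : St A}
    {a b : A} {r t : Bool} (h : Ok s) (hV : V a b (sy r t s)) : Ok (mv r t a b s) :=
  sym A _ r t (okMb hT hE (sym A s r t h) hV)

end Pool.Agent.W5h52.IE
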