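import Pool.Agent.W5h52.IE.Defs

/-! The base move preserves the tilings. -/

set_option autoImplicit false

open MeasureTheory Set Function Filter Topology

namespace Pool.Agent.W5h52.IE

namespace TileP

variable {A : Type} [Fintype A] [DecidableEq A]

theorem sum_upd (w : A → ℝ) (a : A) (c : ℝ) :
    ∑ x, update w a (w a - c) x = (∑ x, w x) - c := by
  rw [Finset.sum_update_of_mem (Finset.mem_univ a), ← Finset.add_sum_erase _ w (Finset.mem_univ a),
    ← Finset.sdiff_singleton_eq_erase]
  ring

theorem two_le (w : A → ℝ) (hw : ∀ a, 0 ≤ w a) {a b : A} (hab : a ≠ b) :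
    w a + w b ≤ ∑ x, w x := by
  have h1 : ∑ x ∈ ({a, b} : Finset A), w x = w a + w b := Finset.sum_pair hab
  rw [← h1]
  exact Finset.sum_le_sum_of_subset_of_nonneg (Finset.subset_univ _) fun x _ _ => hw x

end TileP

open TileP

theorem tile : S_TILE := by
  intro A _ _ s a b hpq htop hbot hV
  obtain ⟨hab, hb0, hba, hla, hmb⟩ := hV
  obtain ⟨hw, hlb, hld, hsum⟩ := htop
  obtain ⟨-, hmbd, hmd, -⟩ := hbot
  have ha0 : 0 < s.w a := lt_of_lt_of_le hb0 hba
  have h2 := two_le s.w hw hab
  have hw' : ∀ c, 0 ≤ update s.w a (s.w a - s.w b) c := by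
    intro c
    by_cases hc : c = a
    · subst hc; rw [update_self]; linarith
    · rw [update_of_ne hc]; exact hw c
  have hwpos : ∀ c, 0 < update s.w a (s.w a - s.w b) c → 0 < s.w c := by
    intro c h
    by_cases hc : c = a
    · subst hc; exact ha0
    · rwa [update_of_ne hc] at h
  have hwle : ∀ c, update s.w a (s.w a - s.w b) c ≤ s.w c := by
    intro c
    by_cases hc : c = a
    · subst hc; rw [update_self]; linarith
    · rw [update_of_ne hc]
  have hwa : update s.w a (s.w a - s.w b) a = s.w a - s.w b := update_self _ _ _
  have hsum' : ∑ c, update s.w a (s.w a - s.w b) c = s.q - s.w b - s.p := by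
    rw [sum_upd, hsum]; ring
  refine ⟨?_, ⟨hw', ?_, ?_, hsum'⟩, ⟨hw', ?_, ?_, hsum'⟩⟩
  · change s.p < s.q - s.w b
    linarith
  · intro c hc
    change 0 < update s.w a (s.w a - s.w b) c at hc
    change s.p ≤ s.l c ∧ s.l c + update s.w a (s.w a - s.w b) c ≤ s.q - s.w b
    have h0 := hwpos c hc
    refine ⟨(hlb c h0).1, ?_⟩
    by_cases hca : c = a
    · subst hca; rw [hwa]; linarith
    · rcases hld c a hca h0 ha0 with h | h
      · have := hwle c; linarith
      · have := (hlb c h0).2; linarith
  · intro c d hcd hc hd
    change 0 < update s.w a (s.w a - s.w b) c at hc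
    change 0 < update s.w a (s.w a - s.w b) d at hd
    change s.l c + update s.w a (s.w a - s.w b) c ≤ s.l d ∨
      s.l d + update s.w a (s.w a - s.w b) d ≤ s.l c
    rcases hld c d hcd (hwpos c hc) (hwpos d hd) with h | h
    · left; have := hwle c; linarith
    · right; have := hwle d; linarith
  · intro c hc
    change 0 < update s.w a (s.w a - s.w b) c at hc
    change s.p ≤ update s.m b (s.m a + s.w a - s.w b) c ∧
      update s.m b (s.m a + s.w a - s.w b) c + update s.w a (s.w a - s.w b) c ≤ s.q - s.w b
    have h0 := hwpos c hc
    by_cases hcb : c = b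
    · subst hcb
      rw [update_self, update_of_ne hab.symm]
      have h3 := (hmbd a ha0)
      refine ⟨by linarith [h3.1], ?_⟩
      rcases hmd a c hab ha0 hb0 with h | h
      · linarith
      · linarith [h3.2]
    · rw [update_of_ne hcb]
      refine ⟨(hmbd c h0).1, ?_⟩
      by_cases hca : c = a
      · subst hca
        rw [hwa]
        have := (hmbd c h0).2
        linarith
      · rcases hmd c b hcb h0 hb0 with h | h
        · have := hwle c; linarith
        · have := (hmbd c h0).2; linarith
  · -- disjointness of the images
    have key : ∀ c, c ≠ b → 0 < s.w c →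
        s.m c + update s.w a (s.w a - s.w b) c ≤ s.m a + s.w a - s.w b ∨
          s.m a + s.w a - s.w b + s.w b ≤ s.m c := by
      intro c hcb h0
      by_cases hca : c = a
      · subst hca
        left; rw [hwa]; linarith
      · rcases hmd c a hca h0 ha0 with h | h
        · left; have := hwle c; linarith
        · right; linarith
    intro c d hcd hc hd
    change 0 < update s.w a (s.w a - s.w b) c at hc
    change 0 < update s.w a (s.w a - s.w b) d at hd
    change update s.m b (s.m a + s.w a - s.w b) c + update s.w a (s.w a - s.w b) c ≤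
        update s.m b (s.m a + s.w a - s.w b) d ∨
      update s.m b (s.m a + s.w a - s.w b) d + update s.w a (s.w a - s.w b) d ≤
        update s.m b (s.m a + s.w a - s.w b) c
    have hc0 := hwpos c hc
    have hd0 := hwpos d hd
    by_cases hcb : c = b
    · subst hcb
      have hdc : d ≠ c := hcd.symm
      rw [update_self, update_of_ne hdc, update_of_ne hab.symm]
      rcases key d hdc hd0 with h | h
      · right; exact h
      · left; exact h
    · rw [update_of_ne hcb]
      by_cases hdb : d = b
      · subst hdb
        rw [update_self, update_of_ne hab.symm]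
        exact key c hcb hc0
      · rw [update_of_ne hdb]
        rcases hmd c d hcd hc0 hd0 with h | h
        · left; have := hwle c; linarith
        · right; have := hwle d; linarith

end Pool.Agent.W5h52.IE
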