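import Pool.Agent.W5h52.IE.Defs

set_option autoImplicit false

/-!
# (T1) Equivariance is transported along paths
-/

open MeasureTheory Set Function Filter Topology

namespace Pool.Agent.W5h52.IE

namespace Trx

variable {A : Type} {G : Type} [Group G] {X : Type}

theorem comp_ae (u : ℝ → G → X) (g1 g2 : G) {δ1 δ2 δ : ℝ} (hδ : δ = δ1 + δ2) {I J K : Set ℝ}
    (h1 : ∀ᵐ x : ℝ, x ∈ I → ∀ y, u (x + δ1) (g1 * y) = u x y)
    (h2 : ∀ᵐ x : ℝ, x ∈ J → ∀ y, u (x + δ2) (g2 * y) = u x y)
    (hI : ∀ x ∈ K, x ∈ I) (hJ : ∀ x ∈ K, x + δ1 ∈ J) :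
    ∀ᵐ x : ℝ, x ∈ K → ∀ y, u (x + δ) (g2 * g1 * y) = u x y := by
  have h3 := (measurePreserving_add_right volume δ1).quasiMeasurePreserving.ae h2
  filter_upwards [h1, h3] with x hx1 hx3 hK y
  have h4 := hx3 (hJ x hK) (g1 * y)
  rw [hδ, ← add_assoc, mul_assoc, h4, hx1 (hI x hK)]

theorem mono_ae (u : ℝ → G → X) (g1 : G) {δ δ' : ℝ} (hδ : δ' = δ) {I K : Set ℝ}
    (h1 : ∀ᵐ x : ℝ, x ∈ I → ∀ y, u (x + δ) (g1 * y) = u x y) (hI : ∀ x ∈ K, x ∈ I) :
    ∀ᵐ x : ℝ, x ∈ K → ∀ y, u (x + δ') (g1 * y) = u x y := by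
  filter_upwards [h1] with x hx1 hK y
  rw [hδ, hx1 (hI x hK)]

theorem ev_append (g : A → G) (v w : List A) : ev g (v ++ w) = ev g v * ev g w := by
  simp [ev]

/-- the statement which is transported -/
def Inv (g : A → G) (u : ℝ → G → X) (z : Nd A) : Prop :=
  ∀ a, ∀ᵐ x : ℝ, x ∈ Ioo (z.1.l a) (z.1.l a + z.1.w a) →
    ∀ y, u (x + (z.1.m a - z.1.l a)) (ev g (z.2 a) * y) = u x y

theorem inv_step [DecidableEq A] (g : A → G) (u : ℝ → G → X) (z : Nd A) (e : Cd A)
    (hV : V e.2.2.1 e.2.2.2 (sy e.1 e.2.1 z.1)) (h : Inv g u z) : Inv g u (step e z) := by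
  obtain ⟨s, W⟩ := z
  obtain ⟨r, t, a, b⟩ := e
  obtain ⟨hab, hb0, hba, hla, hmb⟩ := hV
  intro c
  by_cases hcb : c = b
  · subst hcb
    have h1 := h a
    have h2 := h c
    have hac : ¬ c = a := fun h => hab h.symm
    cases r <;> cases t <;>
      simp only [sy, rf, sw, mb, mv, step, if_true, if_false, Bool.false_eq_true, id_eq,
        update_self, update_of_ne hac, ev_append] at *
    · exact comp_ae u _ _ (by linarith) h2 h1 (fun x hx => hx) (fun x hx => by
        rw [mem_Ioo] at *; constructor <;> linarith [hx.1, hx.2])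
    · exact comp_ae u _ _ (by linarith) h1 h2 (fun x hx => by
        rw [mem_Ioo] at *; constructor <;> linarith [hx.1, hx.2]) (fun x hx => by
        rw [mem_Ioo] at *; constructor <;> linarith [hx.1, hx.2])
    · exact comp_ae u _ _ (by linarith) h2 h1 (fun x hx => by
        rw [mem_Ioo] at *; constructor <;> linarith [hx.1, hx.2]) (fun x hx => by
        rw [mem_Ioo] at *; constructor <;> linarith [hx.1, hx.2])
    · exact comp_ae u _ _ (by linarith) h1 h2 (fun x hx => by
        rw [mem_Ioo] at *; constructor <;> linarith [hx.1, hx.2]) (fun x hx => by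
        rw [mem_Ioo] at *; constructor <;> linarith [hx.1, hx.2])
  · by_cases hca : c = a
    · subst hca
      have h1 := h c
      cases r <;> cases t <;>
        simp only [sy, rf, sw, mb, mv, step, if_true, if_false, Bool.false_eq_true, id_eq,
          update_self, update_of_ne hcb] at *
      all_goals
        exact mono_ae u _ (by ring) h1 (fun x hx => by
          rw [mem_Ioo] at *; constructor <;> linarith [hx.1, hx.2])
    · have h1 := h c
      cases r <;> cases t <;>
        simp only [sy, rf, sw, mb, mv, step, if_true, if_false, Bool.false_eq_true, id_eq,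
          update_of_ne hcb, update_of_ne hca] at *
      all_goals
        exact mono_ae u _ (by ring) h1 (fun x hx => by
          rw [mem_Ioo] at *; constructor <;> linarith [hx.1, hx.2])

end Trx

/-- (T1) equivariance is transported along paths. -/
theorem tr : S_TR := by
  intro A _ _ G _ X s0 g u h0 L z hP
  have h0' : Trx.Inv g u (s0, fun a => [a]) := by
    intro a
    have h1 := h0 a
    have h2 : ev g [a] = g a := by simp [ev]
    simpa only [h2] using h1
  have key : ∀ (L : List (Cd A)) (z : Nd A), Path (s0, fun a => [a]) L z → Trx.Inv g u z := by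
    intro L z hP
    induction hP with
    | nil => exact h0'
    | cons L z e _ hV ih => exact Trx.inv_step g u z e hV ih
  exact key L z hP

end Pool.Agent.W5h52.IE
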