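import Pool.Agent.W5h52.IE.Defs

/-! (B2) Smoothing a measurable set by kernels. -/

open MeasureTheory Set Function Filter Topology

namespace Pool.Agent.W5h52.IE

theorem triv : S_TRIV := by
  intro G _ _ _ _ _ _ _ _ μ _ _
  let _ : MetricSpace G := TopologicalSpace.metrizableSpaceMetric G
  have : Nonempty C(G, ℝ) := ⟨0⟩
  have : TopologicalSpace.SeparableSpace C(G, ℝ) := inferInstance
  refine ⟨TopologicalSpace.denseSeq C(G, ℝ), fun E hE hint => ?_⟩
  -- the translates
  set T : G → Set G := fun y => {z | y * z ∈ E} with hT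
  have hTm : ∀ y, MeasurableSet (T y) := fun y => measurable_const_mul y hE
  have hind : ∀ (y : G) (κ : C(G, ℝ)), ∫ z, E.indicator (fun _ => (1 : ℝ)) (y * z) * κ z ∂μ =
      ∫ z in T y, κ z ∂μ := by
    intro y κ
    rw [← integral_indicator (hTm y)]
    congr 1
    ext z
    by_cases hz : y * z ∈ E
    · have hz' : z ∈ T y := hz
      rw [Set.indicator_of_mem hz, Set.indicator_of_mem hz', one_mul]
    · have hz' : z ∉ T y := hz
      rw [Set.indicator_of_notMem hz, Set.indicator_of_notMem hz', zero_mul]
  -- continuity in the kernel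
  have hlip : ∀ y : G, Continuous fun κ : C(G, ℝ) => ∫ z in T y, κ z ∂μ := by
    intro y
    have : LipschitzWith 1 fun κ : C(G, ℝ) => ∫ z in T y, κ z ∂μ := by
      apply LipschitzWith.of_dist_le_mul
      intro κ κ'
      have hi : ∀ κ : C(G, ℝ), Integrable (fun z => κ z) (μ.restrict (T y)) := fun κ =>
        κ.continuous.integrable_of_hasCompactSupport (HasCompactSupport.of_compactSpace _)
      rw [Real.dist_eq, ← integral_sub (hi κ) (hi κ'), ← Real.norm_eq_abs]
      have hb : ∀ᵐ z ∂(μ.restrict (T y)), ‖κ z - κ' z‖ ≤ dist κ κ' :=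
        Filter.Eventually.of_forall fun z => by
          rw [← dist_eq_norm]; exact ContinuousMap.dist_apply_le_dist z
      refine (norm_integral_le_of_norm_le_const hb).trans ?_
      have h1 : (μ.restrict (T y)).real univ ≤ 1 := by
        rw [measureReal_restrict_apply_univ]
        exact measureReal_le_one
      calc dist κ κ' * (μ.restrict (T y)).real univ ≤ dist κ κ' * 1 :=
            mul_le_mul_of_nonneg_left h1 dist_nonneg
        _ = ((1 : NNReal) : ℝ) * dist κ κ' := by simp
    exact this.continuous
  have hall : ∀ (y : G) (κ : C(G, ℝ)), ∫ z in T y, κ z ∂μ = ∫ z in T 1, κ z ∂μ := by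
    intro y
    have : (fun κ : C(G, ℝ) => ∫ z in T y, κ z ∂μ) = fun κ : C(G, ℝ) => ∫ z in T 1, κ z ∂μ := by
      apply Continuous.ext_on (TopologicalSpace.denseRange_denseSeq C(G, ℝ)) (hlip y) (hlip 1)
      rintro _ ⟨n, rfl⟩
      have := hint n y 1
      rw [hind, hind] at this
      exact this
    intro κ
    exact congrFun this κ
  have hmeas : ∀ y : G, μ.restrict (T y) = μ.restrict (T 1) := by
    intro y
    apply ext_of_forall_integral_eq_of_IsFiniteMeasure
    intro f
    exact hall y f.toContinuousMap
  have hT1 : T 1 = E := by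
    ext z; simp [hT]
  rw [hT1] at hmeas
  -- left invariance
  have : (μ.restrict E).IsMulLeftInvariant := by
    refine ⟨fun y => ?_⟩
    ext B hB
    rw [Measure.map_apply (measurable_const_mul y) hB, ← hmeas y,
      Measure.restrict_apply (measurable_const_mul y hB), hmeas y,
      Measure.restrict_apply hB]
    have : (fun x => y * x) ⁻¹' B ∩ T y = (fun x => y * x) ⁻¹' (B ∩ E) := by
      ext z; simp [hT]
    rw [this, measure_preimage_mul]
  have huniq := Measure.isMulLeftInvariant_eq_smul (μ.restrict E) μ
  by_cases hc : Measure.haarScalarFactor (μ.restrict E) μ = 0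
  · left
    have : (μ.restrict E) univ = 0 := by
      rw [huniq, hc]; simp
    rwa [Measure.restrict_apply_univ] at this
  · right
    have h1 : (μ.restrict E) Eᶜ = 0 := by
      rw [Measure.restrict_apply hE.compl]; simp
    rw [huniq, Measure.smul_apply] at h1
    have h2 := smul_eq_zero.mp h1
    exact h2.resolve_left hc

end Pool.Agent.W5h52.IE
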