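import Pool.Agent.W5h52.IE.Defs

/-! (A6): a live letter which is never a loser wins only finitely often by base moves. -/

set_option autoImplicit false

open MeasureTheory Set Function Filter Topology

namespace Pool.Agent.W5h52.IE

namespace WinAux

variable {A : Type} [Fintype A] [DecidableEq A]

/-- the widths of a move: only the winner gets shorter -/
theorem mv_w (r t : Bool) (x y : A) (s : St A) :
    (mv r t x y s).w = update s.w x (s.w x - s.w y) := by
  cases r <;> cases t <;> rfl

theorem V_w {r t : Bool} {x y : A} {s : St A} (h : V x y (sy r t s)) :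
    x ≠ y ∧ 0 < s.w y ∧ s.w y ≤ s.w x := by
  cases r <;> cases t <;> exact ⟨h.1, h.2.1, h.2.2.1⟩

/-- the letters to the right of `a` in the bottom row -/
noncomputable def X (a : A) (s : St A) : Finset A := by
  classical
  exact Finset.univ.filter (fun z => 0 < s.w z ∧ z ≠ a ∧ s.m a + s.w a ≤ s.m z)

theorem mem_X {a z : A} {s : St A} : z ∈ X a s ↔ 0 < s.w z ∧ z ≠ a ∧ s.m a + s.w a ≤ s.m z := by
  simp [X]

theorem step_facts (s : St A) (hs : Ok s) (r t : Bool) (x y a : A)
    (hV : V x y (sy r t s)) (hya : y ≠ a) (ha : 0 < s.w a) (hq : s.l a + s.w a = s.q) :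
    ((mv r t x y s).l a + (mv r t x y s).w a = (mv r t x y s).q) ∧
    (r = false → t = false ∧ x = a ∧ y ∈ X a s) ∧
    (∀ z ∈ X a s, 0 < (mv r t x y s).w z → z ∈ X a (mv r t x y s)) ∧
    (∀ z ∈ X a s, (mv r t x y s).w z ≠ s.w z → y ∈ X a (mv r t x y s) ∧ y ∉ X a s) := by
  obtain ⟨hxy, hy0, hyx⟩ := V_w hV
  have hx0 : 0 < s.w x := lt_of_lt_of_le hy0 hyx
  have hTl := hs.top.2.1
  have hTd := hs.top.2.2.1
  have hBl := hs.bot.2.1
  have hBd := hs.bot.2.2.1
  have la := hTl a ha
  have lx := hTl x hx0
  have ly := hTl y hy0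
  have ma := hBl a ha
  have mx := hBl x hx0
  have my := hBl y hy0
  have hyx' : y ≠ x := fun h => hxy h.symm
  have day := hTd a y (fun h => hya h.symm) ha hy0
  have bay := hBd a y (fun h => hya h.symm) ha hy0
  have bxy := hBd x y hxy hx0 hy0
  cases r <;> cases t
  · -- base move
    obtain ⟨-, -, -, h4, h5⟩ := hV
    simp only [sy, id, Bool.false_eq_true, if_false] at h4 h5
    have hxa : x = a := by
      by_contra hne
      rcases hTd x a hne hx0 ha with h | h <;> linarith
    subst hxa
    have hyX : y ∈ X x s := by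
      rw [mem_X]
      refine ⟨hy0, hya, ?_⟩
      rcases bay with h | h
      · exact h
      · linarith
    refine ⟨?_, fun _ => ⟨rfl, rfl, hyX⟩, ?_, ?_⟩
    · simp only [mv, sy, id, Bool.false_eq_true, if_false, mb, update_self]
      linarith
    · intro z hz hz0
      rw [mem_X] at hz ⊢
      refine ⟨hz0, hz.2.1, ?_⟩
      simp only [mv, sy, id, Bool.false_eq_true, if_false, mb, update_self]
      rw [update_of_ne hxy]
      by_cases hzy : z = y
      · subst hzy
        rw [update_self]
        linarith
      · rw [update_of_ne hzy]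
        linarith [hz.2.2]
    · intro z hz hne
      rw [mem_X] at hz
      exact absurd (by rw [mv_w, update_of_ne hz.2.1]) hne
  · -- right move, the loser is the top letter: impossible
    obtain ⟨-, -, -, h4, h5⟩ := hV
    simp only [sy, sw, id, Bool.false_eq_true, if_false, if_true] at h4 h5
    exfalso
    rcases day with h | h <;> linarith
  · -- left move, the loser is the bottom letter
    obtain ⟨-, -, -, h4, h5⟩ := hV
    simp only [sy, rf, id, Bool.false_eq_true, if_false, if_true] at h4 h5
    have hlx : s.l x = s.p := by linarith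
    have hmy : s.m y = s.p := by linarith
    have hyX : y ∉ X a s := by
      rw [mem_X]
      rintro ⟨-, -, h⟩
      linarith
    refine ⟨?_, fun h => by simp at h, ?_, ?_⟩
    · simp only [mv, sy, rf, id, Bool.false_eq_true, if_false, if_true, mb]
      by_cases hax : a = x
      · subst hax
        rw [update_self]
        linarith
      · rw [update_of_ne hax]
        linarith
    · intro z hz hz0
      have hz' := hz
      rw [mem_X] at hz ⊢
      refine ⟨hz0, hz.2.1, ?_⟩
      have hzy : z ≠ y := fun h => hyX (h ▸ hz')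
      simp only [mv, sy, rf, id, Bool.false_eq_true, if_false, if_true, mb]
      rw [update_of_ne hzy, update_of_ne (fun h => hya h.symm)]
      by_cases hzx : z = x
      · subst hzx
        rw [update_self, update_of_ne (fun h => hz.2.1 h.symm)]
        linarith [hz.2.2]
      · rw [update_of_ne hzx]
        by_cases hax : a = x
        · subst hax
          rw [update_self]
          linarith [hz.2.2]
        · rw [update_of_ne hax]
          linarith [hz.2.2]
    · intro z hz hne
      have hzx : z = x := by
        by_contra hzx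
        exact hne (by rw [mv_w, update_of_ne hzx])
      subst hzx
      refine ⟨?_, hyX⟩
      rw [mem_X] at hz ⊢
      refine ⟨?_, hya, ?_⟩
      · rw [mv_w, update_of_ne hyx']
        exact hy0
      · simp only [mv, sy, rf, id, Bool.false_eq_true, if_false, if_true, mb]
        rw [update_self, update_of_ne (fun h => hya h.symm),
          update_of_ne (fun h => hz.2.1 h.symm), update_of_ne hyx']
        linarith [hz.2.2]
  · -- left move, the loser is the top letter
    obtain ⟨-, -, -, h4, h5⟩ := hV
    simp only [sy, rf, sw, if_true] at h4 h5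
    have hmx : s.m x = s.p := by linarith
    have hly : s.l y = s.p := by linarith
    have hxX : x ∉ X a s := by
      rw [mem_X]
      rintro ⟨-, -, h⟩
      linarith
    refine ⟨?_, fun h => by simp at h, ?_, ?_⟩
    · simp only [mv, sy, rf, sw, if_true, mb]
      rw [update_of_ne (fun h => hya h.symm)]
      by_cases hax : a = x
      · subst hax
        rw [update_self]
        linarith
      · rw [update_of_ne hax]
        linarith
    · intro z hz hz0
      have hz' := hz
      rw [mem_X] at hz ⊢
      refine ⟨hz0, hz.2.1, ?_⟩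
      have hzx : z ≠ x := fun h => hxX (h ▸ hz')
      simp only [mv, sy, rf, sw, if_true, mb]
      rw [update_of_ne hzx]
      by_cases hax : a = x
      · subst hax
        rw [update_self]
        linarith [hz.2.2]
      · rw [update_of_ne hax]
        linarith [hz.2.2]
    · intro z hz hne
      exfalso
      have hzx : z = x := by
        by_contra hzx
        exact hne (by rw [mv_w, update_of_ne hzx])
      subst hzx
      exact hxX hz

/-- an eventually monotone sequence of finite sets is eventually constant -/
theorem ev_const (F : ℕ → Finset A) (N : ℕ) (h : ∀ n, N ≤ n → F n ⊆ F (n + 1)) :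
    ∃ M, N ≤ M ∧ ∀ n, M ≤ n → F n = F M := by
  have hm : ∀ i j, N ≤ i → i ≤ j → F i ⊆ F j := by
    intro i j hi hij
    induction j, hij using Nat.le_induction with
    | base => exact Finset.Subset.refl _
    | succ j hj ih => exact ih.trans (h j (hi.trans hj))
  have hb : BddAbove (Set.range fun n => (F (N + n)).card) :=
    ⟨Fintype.card A, by rintro _ ⟨n, rfl⟩; exact Finset.card_le_univ _⟩
  obtain ⟨k, hk⟩ : ∃ k, ∀ n, (F (N + n)).card ≤ (F (N + k)).card := by
    obtain ⟨k, hk⟩ := Nat.sSup_mem (Set.range_nonempty _) hb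
    exact ⟨k, fun n => by
      have := le_csSup hb ⟨n, rfl⟩
      simp only at hk
      rw [hk]
      exact this⟩
  refine ⟨N + k, by omega, fun n hn => ?_⟩
  obtain ⟨j, rfl⟩ : ∃ j, n = N + j := ⟨n - N, by omega⟩
  exact (Finset.eq_of_subset_of_card_le (hm (N + k) (N + j) (by omega) hn) (hk j)).symm

end WinAux

open WinAux

theorem win : S_WIN := by
  intro A _ _ s r t x y hOk hV hs a hya hwa
  by_contra hcon
  push Not at hcon
  -- from the first base move with winner `a` on
  obtain ⟨n0, -, hr0, ht0, hx0⟩ := hcon 0
  have hw1 : ∀ n, (s (n + 1)).w = update (s n).w (x n) ((s n).w (x n) - (s n).w (y n)) := by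
    intro n
    rw [hs n, mv_w]
  have hVw := fun n => V_w (hV n)
  have hanti1 : ∀ n z, (s (n + 1)).w z ≤ (s n).w z := by
    intro n z
    rw [hw1 n]
    by_cases hz : z = x n
    · subst hz
      rw [update_self]
      linarith [(hVw n).2.1]
    · rw [update_of_ne hz]
  have hq : ∀ n, n0 ≤ n → (s n).l a + (s n).w a = (s n).q := by
    intro n hn
    induction n, hn using Nat.le_induction with
    | base =>
      have := (hV n0).2.2.2.1
      rw [hr0, ht0, hx0] at this
      exact this
    | succ n hn ih =>
      have := (step_facts (s n) (hOk n) (r n) (t n) (x n) (y n) a (hV n) (hya n) (hwa n) ih).1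
      rw [hs n]
      exact this
  have hf := fun n (hn : n0 ≤ n) =>
    step_facts (s n) (hOk n) (r n) (t n) (x n) (y n) a (hV n) (hya n) (hwa n) (hq n hn)
  -- the live letters are eventually constant
  obtain ⟨N1, hN1, hL⟩ := ev_const (fun n => Finset.univ.filter fun z => ¬ 0 < (s n).w z) n0 (by
    intro n hn z hz
    simp only [Finset.mem_filter, Finset.mem_univ, true_and] at hz ⊢
    exact fun h => hz (lt_of_lt_of_le h (hanti1 n z)))
  have hlive : ∀ n, N1 ≤ n → ∀ z, 0 < (s n).w z → 0 < (s (n + 1)).w z := by
    intro n hn z hz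
    by_contra hc
    have h1 : z ∈ Finset.univ.filter fun z => ¬ 0 < (s (n + 1)).w z := by simpa using hc
    have e1 := hL n hn
    have e2 := hL (n + 1) (by omega)
    rw [e2, ← e1] at h1
    simp only [Finset.mem_filter, Finset.mem_univ, true_and] at h1
    exact h1 hz
  -- the letters to the right of `a` are eventually constant
  obtain ⟨N2, hN2, hX⟩ := ev_const (fun n => X a (s n)) N1 (by
    intro n hn z hz
    have h1 := (hf n (hN1.trans hn)).2.2.1 z hz
    rw [← hs n] at h1
    exact h1 (hlive n hn z (mem_X.1 hz).1))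
  have hwX : ∀ n, N2 ≤ n → ∀ z ∈ X a (s n), (s (n + 1)).w z = (s n).w z := by
    intro n hn z hz
    by_contra hne
    have h1 := (hf n (by omega)).2.2.2 z hz
    rw [← hs n] at h1
    obtain ⟨h2, h3⟩ := h1 hne
    have e1 := hX n hn
    have e2 := hX (n + 1) (by omega)
    rw [e2, ← e1] at h2
    exact h3 h2
  have hwX' : ∀ n, N2 ≤ n → ∀ z ∈ X a (s N2), (s n).w z = (s N2).w z := by
    intro n hn z hz
    induction n, hn using Nat.le_induction with
    | base => rfl
    | succ n hn ih =>
      rw [hwX n hn z (by rw [show X a (s n) = X a (s N2) from hX n hn]; exact hz), ih]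
  -- lower bound for the widths of these letters
  obtain ⟨δ, hδ, hδw⟩ : ∃ δ : ℝ, 0 < δ ∧ ∀ z ∈ X a (s N2), δ ≤ (s N2).w z := by
    rcases (X a (s N2)).eq_empty_or_nonempty with h | h
    · exact ⟨1, one_pos, fun z hz => by rw [h] at hz; simp at hz⟩
    · obtain ⟨z0, hz0, hmin⟩ := Finset.exists_min_image (X a (s N2)) (s N2).w h
      exact ⟨(s N2).w z0, (mem_X.1 hz0).1, hmin⟩
  -- the widths of `a` converge
  have hanti : Antitone fun n => (s n).w a := antitone_nat_of_succ_le fun n => hanti1 n a
  have hlim : Tendsto (fun n => (s n).w a) atTop (𝓝 (⨅ n, (s n).w a)) :=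
    tendsto_atTop_ciInf hanti ⟨0, by rintro _ ⟨n, rfl⟩; exact (hwa n).le⟩
  have hdiff : Tendsto (fun n => (s n).w a - (s (n + 1)).w a) atTop (𝓝 0) := by
    have := hlim.sub (hlim.comp (tendsto_add_atTop_nat 1))
    simpa using this
  obtain ⟨N3, hN3⟩ := eventually_atTop.1 (hdiff.eventually (gt_mem_nhds hδ))
  obtain ⟨n, hn, hrn, htn, hxn⟩ := hcon (max N2 N3)
  have hn2 : N2 ≤ n := (le_max_left _ _).trans hn
  have hn3 : N3 ≤ n := (le_max_right _ _).trans hn
  have h1 := hN3 n hn3
  have hyX : y n ∈ X a (s n) := ((hf n (by omega)).2.1 hrn).2.2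
  have hyX' : y n ∈ X a (s N2) := by
    rw [← show X a (s n) = X a (s N2) from hX n hn2]
    exact hyX
  have h2 : (s (n + 1)).w a = (s n).w a - (s n).w (y n) := by
    rw [hw1 n, hxn, update_self]
  rw [h2] at h1
  have h3 := hδw (y n) hyX'
  rw [← hwX' n hn2 (y n) hyX'] at h3
  linarith

end Pool.Agent.W5h52.IE
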