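import Pool.Agent.W5h52.IE.End
import Pool.Agent.W5h52.IE.TileM
import Pool.Agent.W5h52.IE.Erg
import Pool.Agent.W5h52.IE.Sym
import Pool.Agent.W5h52.IE.NE
import Pool.Agent.W5h52.IE.Win
import Pool.Agent.W5h52.IE.Shr
import Pool.Agent.W5h52.IE.Bal
import Pool.Agent.W5h52.IE.Keep
import Pool.Agent.W5h52.IE.PartA
import Pool.Agent.W5h52.IE.Tr
import Pool.Agent.W5h52.IE.Haar
import Pool.Agent.W5h52.IE.SE
import Pool.Agent.W5h52.IE.Triv
import Pool.Agent.W5h52.IE.Sm
import Pool.Agent.W5h52.IE.Leb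
import Pool.Agent.W5h52.IE.B
import Pool.Agent.W5h52.IE.Init
import Pool.Agent.W5h52.IE.MP

namespace Pool.Agent.W5h52.IE

theorem sA : S_A := partA tile ergM sym (shr win sym) (bal (shr win sym) ne) (keep endd sym ne)
theorem sB : S_B := bb se triv sm lebT
end Pool.Agent.W5h52.IE
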