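import Pool.Agent.W5h52.IE.Defs

open MeasureTheory Set Function Filter Topology

set_option linter.all false
namespace Pool.Agent.W5h52.IE
variable {A : Type}

@[simp] lemma rf_rf (s : St A) : rf (rf s) = s := by
  cases s; simp [rf]
@[simp] lemma sw_sw (s : St A) : sw (sw s) = s := rfl
lemma rf_sw (s : St A) : rf (sw s) = sw (rf s) := rfl

lemma sy_comp (r t r' t' : Bool) (s : St A) :
    sy r t (sy r' t' s) = sy (xor r r') (xor t t') s := by
  cases r <;> cases t <;> cases r' <;> cases t' <;> simp [sy, rf_sw]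

@[simp] lemma sy_inv (r t : Bool) (s : St A) : sy r t (sy r t s) = s := by
  rw [sy_comp]; cases r <;> cases t <;> rfl

@[simp] lemma sy_w (r t : Bool) (s : St A) : (sy r t s).w = s.w := by
  cases r <;> cases t <;> rfl

section
variable [DecidableEq A]

lemma mv_sy (r t r' t' : Bool) (a b : A) (s : St A) :
    sy r t (mv r' t' a b s) = mv (xor r r') (xor t t') a b (sy r t s) := by
  unfold mv
  rw [sy_comp, sy_comp]
  congr 2
  cases r <;> cases t <;> cases r' <;> cases t' <;> rfl

lemma V_sy (r t r' t' : Bool) (a b : A) (s : St A) (h : V a b (sy r' t' s)) :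
    V a b (sy (xor r r') (xor t t') (sy r t s)) := by
  rw [sy_comp]
  have : sy (xor (xor r r') r) (xor (xor t t') t) s = sy r' t' s := by
    congr 1 <;> cases r <;> cases t <;> cases r' <;> cases t' <;> rfl
  rw [this]; exact h

/-- Elementary consequences of a move. -/
structure MvFacts (a b : A) (s s' : St A) : Prop where
  ne : a ≠ b
  wb : 0 < s.w b
  wab : s.w b ≤ s.w a
  w' : s'.w = update s.w a (s.w a - s.w b)
  d' : s'.q - s'.p = s.q - s.p - s.w b
  p' : s.p ≤ s'.p
  q' : s'.q ≤ s.q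
  oth : ∀ c, c ≠ a → c ≠ b → s'.l c = s.l c ∧ s'.m c = s.m c
  dl : s'.m a - s'.l a = s.m a - s.l a
  la : s.l a ≤ s'.l a
  ra : s'.l a + s'.w a ≤ s.l a + s.w a
  ma : s.m a ≤ s'.m a
  sa : s'.m a + s'.w a ≤ s.m a + s.w a

lemma mvFacts {a b : A} {r t : Bool} {s : St A} (h : V a b (sy r t s)) :
    MvFacts a b s (mv r t a b s) := by
  obtain ⟨h1, h2, h3, h4, h5⟩ := h
  have h1' : b ≠ a := h1.symm
  cases r <;> cases t <;>
  · simp only [sy, rf, sw, if_true, if_false, id, Bool.false_eq_true, if_false] at h2 h3 h4 h5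
    constructor
    · exact h1
    · linarith
    · linarith
    · simp [mv, sy, mb, rf, sw]
    · simp [mv, sy, mb, rf, sw] <;> ring
    · simp [mv, sy, mb, rf, sw] <;> linarith
    · simp [mv, sy, mb, rf, sw] <;> linarith
    · intro c hca hcb
      simp [mv, sy, mb, rf, sw, hca, hcb]
    · simp [mv, sy, mb, rf, sw, h1, h1'] <;> ring
    · simp [mv, sy, mb, rf, sw, h1, h1'] <;> linarith
    · simp [mv, sy, mb, rf, sw, h1, h1'] <;> linarith
    · simp [mv, sy, mb, rf, sw, h1, h1'] <;> linarith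
    · simp [mv, sy, mb, rf, sw, h1, h1'] <;> linarith

end
end Pool.Agent.W5h52.IE
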