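import Mathlib

/-! Interface for MP_5ca0ff_an: two-sided Rauzy induction and compact group extensions of
interval exchange transformations. -/

open MeasureTheory Set Function Filter Topology

namespace Pool.Agent.W5h52.IE

/-- A state: the interval `[p,q]`, and for every letter the left end `l` of its domain interval, the
left end `m` of its image interval, and the common width `w` (width `0` means: dead letter).
The state map is `x ↦ x + (m a - l a)` on `(l a, l a + w a)`. -/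
structure St (A : Type) where
  p : ℝ
  q : ℝ
  l : A → ℝ
  m : A → ℝ
  w : A → ℝ

variable {A : Type}

/-- The open intervals `(l a, l a + w a)` of the live letters tile `(p,q)` up to finitely many points. -/
def Tile [Fintype A] (p q : ℝ) (l w : A → ℝ) : Prop :=
  (∀ a, 0 ≤ w a) ∧ (∀ a, 0 < w a → p ≤ l a ∧ l a + w a ≤ q) ∧
  (∀ a b, a ≠ b → 0 < w a → 0 < w b → l a + w a ≤ l b ∨ l b + w b ≤ l a) ∧
  ∑ a, w a = q - p

/-- Ergodicity of the state map. -/
def Erg (s : St A) : Prop := ∀ K : Set ℝ, MeasurableSet K →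
  (∀ a, ∀ᵐ x : ℝ, x ∈ Ioo (s.l a) (s.l a + s.w a) → (x ∈ K ↔ x + (s.m a - s.l a) ∈ K)) →
  volume (Ioo s.p s.q ∩ K) = 0 ∨ volume (Ioo s.p s.q \ K) = 0

structure Ok [Fintype A] (s : St A) : Prop where
  lt : s.p < s.q
  top : Tile s.p s.q s.l s.w
  bot : Tile s.p s.q s.m s.w
  erg : Erg s

/-- reflection `x ↦ -x` -/
def rf (s : St A) : St A :=
  ⟨-s.q, -s.p, fun a => -(s.l a + s.w a), fun a => -(s.m a + s.w a), s.w⟩
/-- inversion of the map -/
def sw (s : St A) : St A := ⟨s.p, s.q, s.m, s.l, s.w⟩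
/-- the four symmetries -/
def sy (r t : Bool) (s : St A) : St A := (if r then rf else id) ((if t then sw else id) s)

/-- The base move (cut at the right end, the bottom letter `b` loses, the top letter `a` wins) is
possible. -/
def V (a b : A) (s : St A) : Prop :=
  a ≠ b ∧ 0 < s.w b ∧ s.w b ≤ s.w a ∧ s.l a + s.w a = s.q ∧ s.m b + s.w b = s.q

section
variable [DecidableEq A]
/-- The base move. -/
def mb (a b : A) (s : St A) : St A :=
  ⟨s.p, s.q - s.w b, s.l, update s.m b (s.m a + s.w a - s.w b), update s.w a (s.w a - s.w b)⟩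
/-- General move: winner `a`, loser `b`; `r`: at the left end; `t`: the loser is the top letter. -/
def mv (r t : Bool) (a b : A) (s : St A) : St A := sy r t (mb a b (sy r t s))

/-- Nodes: state and the return words. -/
abbrev Nd (A : Type) := St A × (A → List A)
/-- Code of a move: (r, t, winner, loser). -/
abbrev Cd (A : Type) := Bool × Bool × A × A

def step (e : Cd A) (z : Nd A) : Nd A :=
  (mv e.1 e.2.1 e.2.2.1 e.2.2.2 z.1,
   update z.2 e.2.2.2 (if e.2.1 then z.2 e.2.2.2 ++ z.2 e.2.2.1 else z.2 e.2.2.1 ++ z.2 e.2.2.2))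

/-- Valid paths of moves (latest move first in the list). -/
inductive Path (z0 : Nd A) : List (Cd A) → Nd A → Prop
  | nil : Path z0 [] z0
  | cons (L : List (Cd A)) (z : Nd A) (e : Cd A) : Path z0 L z →
      V e.2.2.1 e.2.2.2 (sy e.1 e.2.1 z.1) → Path z0 (e :: L) (step e z)

/-- One valid move. -/
def Mv (s s' : St A) : Prop :=
  ∃ (r t : Bool) (a b : A), V a b (sy r t s) ∧ s' = mv r t a b s
end

/-- Evaluation of a word. -/
def ev {G : Type} [Monoid G] (g : A → G) (w : List A) : G := (w.map g).prod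

/-! ### Part A: statements -/

/-- (A1) end letters. -/
def S_END : Prop := ∀ (A : Type) [Fintype A] (p q : ℝ) (l w : A → ℝ), p < q → Tile p q l w →
  (∃ a, 0 < w a ∧ l a + w a = q) ∧ (∃ a, 0 < w a ∧ l a = p)

/-- (A2) the base move preserves the tilings. -/
def S_TILE : Prop := ∀ (A : Type) [Fintype A] [DecidableEq A] (s : St A) (a b : A),
  s.p < s.q → Tile s.p s.q s.l s.w → Tile s.p s.q s.m s.w → V a b s →
  (mb a b s).p < (mb a b s).q ∧ Tile (mb a b s).p (mb a b s).q (mb a b s).l (mb a b s).w ∧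
    Tile (mb a b s).p (mb a b s).q (mb a b s).m (mb a b s).w

/-- (A3) the base move preserves ergodicity. -/
def S_ERG : Prop := ∀ (A : Type) [Fintype A] [DecidableEq A] (s : St A) (a b : A),
  Ok s → V a b s → Erg (mb a b s)

/-- (A4) the symmetries preserve `Ok`. -/
def S_SYM : Prop := ∀ (A : Type) [Fintype A] (s : St A) (r t : Bool), Ok s → Ok (sy r t s)

/-- (A5) live letters move. -/
def S_NE : Prop := ∀ (A : Type) [Fintype A] (s : St A), Ok s → ∀ a, 0 < s.w a → s.m a ≠ s.l a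

/-- (A6) a live letter which is never a loser wins only finitely often by base moves. -/
def S_WIN : Prop := ∀ (A : Type) [Fintype A] [DecidableEq A] (s : ℕ → St A)
  (r t : ℕ → Bool) (x y : ℕ → A), (∀ n, Ok (s n)) →
  (∀ n, V (x n) (y n) (sy (r n) (t n) (s n))) →
  (∀ n, s (n + 1) = mv (r n) (t n) (x n) (y n) (s n)) →
  ∀ a : A, (∀ n, y n ≠ a) → (∀ n, 0 < (s n).w a) →
  ∃ N, ∀ n, N ≤ n → ¬ (r n = false ∧ t n = false ∧ x n = a)

/-- (A7) the intervals shrink to points. -/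
def S_SHR : Prop := ∀ (A : Type) [Fintype A] [DecidableEq A] (s : ℕ → St A),
  (∀ n, Ok (s n)) → (∀ n, Mv (s n) (s (n + 1))) →
  Tendsto (fun n => (s n).q - (s n).p) atTop (𝓝 0)

/-- (A8) infinitely often no letter dominates. -/
def S_BAL : Prop := ∀ (A : Type) [Fintype A] [DecidableEq A] (s : ℕ → St A),
  (∀ n, Ok (s n)) → (∀ n, Mv (s n) (s (n + 1))) →
  ∀ N, ∃ n, N ≤ n ∧ ∀ a, (s n).w a ≤ 3 / 4 * ((s n).q - (s n).p)

/-- (A9) a move keeping a given point. -/
def S_KEEP : Prop := ∀ (A : Type) [Fintype A] [DecidableEq A] (s : St A) (x : ℝ), Ok s →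
  x ∈ Ioo s.p s.q → ∃ (r t : Bool) (a b : A), V a b (sy r t s) ∧
    x ∈ Icc (mv r t a b s).p (mv r t a b s).q

/-- (A10) Part A: around almost every point there are arbitrarily small balanced nodes. -/
def S_A : Prop := ∀ (A : Type) [Fintype A] [DecidableEq A] (s0 : St A), Ok s0 →
  ∃ Z : Set ℝ, Z.Countable ∧ ∀ x ∈ Ioo s0.p s0.q, x ∉ Z → ∀ ρ : ℝ, 0 < ρ →
    ∃ (L : List (Cd A)) (z : Nd A), Path (s0, fun a => [a]) L z ∧ Ok z.1 ∧
      x ∈ Ioo z.1.p z.1.q ∧ z.1.q - z.1.p < ρ ∧ ∀ a, z.1.w a ≤ 3 / 4 * (z.1.q - z.1.p)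

/-! ### Part T: transport -/

/-- (T1) equivariance is transported along paths. -/
def S_TR : Prop := ∀ (A : Type) [Fintype A] [DecidableEq A] (G : Type) [Group G] (X : Type)
  (s0 : St A) (g : A → G) (u : ℝ → G → X),
  (∀ a, ∀ᵐ x : ℝ, x ∈ Ioo (s0.l a) (s0.l a + s0.w a) →
    ∀ y, u (x + (s0.m a - s0.l a)) (g a * y) = u x y) →
  ∀ (L : List (Cd A)) (z : Nd A), Path (s0, fun a => [a]) L z →
  ∀ a, ∀ᵐ x : ℝ, x ∈ Ioo (z.1.l a) (z.1.l a + z.1.w a) →
    ∀ y, u (x + (z.1.m a - z.1.l a)) (ev g (z.2 a) * y) = u x y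

/-- (T2) the return words of a node are again independent and Haar distributed. -/
def S_HAAR : Prop := ∀ (A : Type) [Fintype A] [DecidableEq A] (G : Type) [Group G]
  [TopologicalSpace G] [IsTopologicalGroup G] [CompactSpace G] [T2Space G]
  [SecondCountableTopology G] [MeasurableSpace G] [BorelSpace G]
  (μ : Measure G) [μ.IsHaarMeasure] [IsProbabilityMeasure μ] (s0 : St A)
  (L : List (Cd A)) (z : Nd A), Path (s0, fun a => [a]) L z →
  MeasurePreserving (fun (g : A → G) (a : A) => ev g (z.2 a)) (Measure.pi fun _ => μ)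
    (Measure.pi fun _ => μ)

/-! ### Part B: measure theory -/

section B
variable {G : Type} [Group G] [TopologicalSpace G]

/-- Functions on `G` with modulus of continuity controlled by `κ`, bounded by `1`, and with
oscillation at least `η`. -/
def CK (κ : C(G, ℝ)) (η : ℝ) : Set C(G, ℝ) :=
  {v | (∀ y y' δ, (∀ z, |κ (y⁻¹ * z) - κ (y'⁻¹ * z)| ≤ δ) → |v y - v y'| ≤ δ) ∧
    (∀ y δ, (∀ z, |κ z| ≤ δ) → |v y| ≤ δ) ∧ ∃ y y', η ≤ |v y - v y'|}

/-- Pairs almost fixing some function of `CK κ η`. -/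
def SE (κ : C(G, ℝ)) (η ε : ℝ) : Set (G × G) :=
  {z | ∃ v ∈ CK κ η, (∀ y, |v (z.1 * y) - v y| ≤ ε) ∧ ∀ y, |v (z.2 * y) - v y| ≤ ε}
end B

/-- (B1) `SE` is closed, and its measure tends to `0` if almost every pair generates a dense
subgroup. -/
def S_SE : Prop := ∀ (G : Type) [Group G]
  [TopologicalSpace G] [IsTopologicalGroup G] [CompactSpace G] [T2Space G]
  [SecondCountableTopology G] [MeasurableSpace G] [BorelSpace G]
  (μ : Measure G) [IsProbabilityMeasure μ],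
  (∀ᵐ z : G × G ∂(μ.prod μ), Dense (Subgroup.closure ({z.1, z.2} : Set G) : Set G)) →
  ∀ (κ : C(G, ℝ)) (η : ℝ), 0 < η → (∀ ε, IsClosed (SE κ η ε)) ∧
    Tendsto (fun n : ℕ => (μ.prod μ) (SE κ η (1 / (n + 1)))) atTop (𝓝 0)

/-- (B2) smoothing a measurable set by kernels: if all smoothings are constant, the set is trivial. -/
def S_TRIV : Prop := ∀ (G : Type) [Group G]
  [TopologicalSpace G] [IsTopologicalGroup G] [CompactSpace G] [T2Space G]
  [SecondCountableTopology G] [MeasurableSpace G] [BorelSpace G]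
  (μ : Measure G) [μ.IsHaarMeasure] [IsProbabilityMeasure μ],
  ∃ κ : ℕ → C(G, ℝ), ∀ E : Set G, MeasurableSet E →
    (∀ n y y', ∫ z, E.indicator (fun _ => (1 : ℝ)) (y * z) * κ n z ∂μ =
      ∫ z, E.indicator (fun _ => (1 : ℝ)) (y' * z) * κ n z ∂μ) → μ E = 0 ∨ μ Eᶜ = 0

/-- (B3) the smoothing `x ↦ u x ∈ C(G)` of a measurable set `E ⊆ ℝ × G`. -/
def S_SM : Prop := ∀ (G : Type) [Group G]
  [TopologicalSpace G] [IsTopologicalGroup G] [CompactSpace G] [T2Space G]
  [SecondCountableTopology G] [MeasurableSpace G] [BorelSpace G]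
  (μ : Measure G) [μ.IsHaarMeasure] [IsProbabilityMeasure μ] (κ : C(G, ℝ))
  (E : Set (ℝ × G)), MeasurableSet E →
  ∃ u : ℝ → C(G, ℝ), (∀ x y, u x y =
      ∫ z, E.indicator (fun _ => (1 : ℝ)) (x, y * z) * κ z ∂μ) ∧
    (∀ y, Measurable (fun x => u x y)) ∧
    (∀ x y y' δ, (∀ z, |κ (y⁻¹ * z) - κ (y'⁻¹ * z)| ≤ δ) → |u x y - u x y'| ≤ δ) ∧
    (∀ x y δ, (∀ z, |κ z| ≤ δ) → |u x y| ≤ δ)

/-- (B4) Lebesgue points, uniformly on `G`, in the form used: for almost every `x`, every relatively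
large part of a small interval around `x`, translated inside the interval, contains a point where
`u` is close to `u x` before and after the translation. -/
def S_LEB : Prop := ∀ (G : Type) [Group G]
  [TopologicalSpace G] [IsTopologicalGroup G] [CompactSpace G] [T2Space G]
  [SecondCountableTopology G] (κ : C(G, ℝ)) (u : ℝ → C(G, ℝ)),
  (∀ y, Measurable (fun x => u x y)) →
  (∀ x y y' δ, (∀ z, |κ (y⁻¹ * z) - κ (y'⁻¹ * z)| ≤ δ) → |u x y - u x y'| ≤ δ) →
  (∀ x y δ, (∀ z, |κ z| ≤ δ) → |u x y| ≤ δ) →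
  ∀ c : ℝ, 0 < c → ∀ᵐ x : ℝ, ∀ ε : ℝ, 0 < ε → ∃ ρ : ℝ, 0 < ρ ∧
    ∀ p q l m w : ℝ, p < x → x < q → q - p < ρ → c * (q - p) ≤ w → p ≤ l → l + w ≤ q →
      p ≤ m → m + w ≤ q → ∀ F : Set ℝ, (∀ᵐ t : ℝ, t ∈ F) →
      ∃ t ∈ F, t ∈ Ioo l (l + w) ∧ (∀ y, |u t y - u x y| ≤ ε) ∧
        ∀ y, |u (t + (m - l)) y - u x y| ≤ ε

/-- Data of a node used in part B: interval `(p,q)` and two letters. -/
structure Bn (Ω G : Type) where
  p : ℝ
  q : ℝ
  l : Bool → ℝ
  m : Bool → ℝ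
  w : Bool → ℝ
  h : Bool → Ω → G

/-- (B5) the abstract theorem: countably many nodes, around almost every point of `(0,1)` arbitrarily
small ones, pairs of return elements Haar distributed. Then for almost every `ω`, sets invariant
under all the partial maps have trivial fibres. -/
def S_B : Prop := ∀ (Ω : Type) [MeasurableSpace Ω] (P : Measure Ω) [IsProbabilityMeasure P]
  (G : Type) [Group G]
  [TopologicalSpace G] [IsTopologicalGroup G] [CompactSpace G] [T2Space G]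
  [SecondCountableTopology G] [MeasurableSpace G] [BorelSpace G]
  (μ : Measure G) [μ.IsHaarMeasure] [IsProbabilityMeasure μ],
  (∀ᵐ z : G × G ∂(μ.prod μ), Dense (Subgroup.closure ({z.1, z.2} : Set G) : Set G)) →
  ∀ (c : ℝ), 0 < c → ∀ ν : ℕ → Bn Ω G,
  (∀ i, (ν i).p < (ν i).q ∧ ∀ j, c * ((ν i).q - (ν i).p) ≤ (ν i).w j ∧
    (ν i).p ≤ (ν i).l j ∧ (ν i).l j + (ν i).w j ≤ (ν i).q ∧
    (ν i).p ≤ (ν i).m j ∧ (ν i).m j + (ν i).w j ≤ (ν i).q) →
  (∀ i, MeasurePreserving (fun ω => ((ν i).h false ω, (ν i).h true ω)) P (μ.prod μ)) →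
  (∀ᵐ x : ℝ, x ∈ Ioo (0 : ℝ) 1 → ∀ ρ : ℝ, 0 < ρ →
    ∃ i, x ∈ Ioo (ν i).p (ν i).q ∧ (ν i).q - (ν i).p < ρ) →
  ∀ᵐ ω ∂P, ∀ E : Set (ℝ × G), MeasurableSet E →
    (∀ i j, ∀ᵐ x : ℝ, x ∈ Ioo ((ν i).l j) ((ν i).l j + (ν i).w j) →
      ∀ y, ((x + ((ν i).m j - (ν i).l j), (ν i).h j ω * y) ∈ E ↔ (x, y) ∈ E)) →
    ∀ᵐ x : ℝ, x ∈ Ioo (0 : ℝ) 1 → μ {y | (x, y) ∈ E} = 0 ∨ μ {y | (x, y) ∈ E}ᶜ = 0

end Pool.Agent.W5h52.IE
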