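import Pool.Agent.W5h52.IE.Defs

/-! (A1) end letters of a tiling. -/

open MeasureTheory Set Function Filter Topology

namespace Pool.Agent.W5h52.IE

theorem end_right {A : Type} [Fintype A] {p q : ℝ} {l w : A → ℝ} (hpq : p < q)
    (h : Tile p q l w) : ∃ a, 0 < w a ∧ l a + w a = q := by
  classical
  obtain ⟨h0, h1, h2, h3⟩ := h
  set L : Finset A := Finset.univ.filter (fun a => 0 < w a) with hL
  have hsum : ∑ a ∈ L, w a = q - p := by
    rw [← h3, hL, Finset.sum_filter]
    refine Finset.sum_congr rfl fun a _ => ?_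
    split_ifs with hw
    · rfl
    · exact le_antisymm (h0 a) (not_lt.1 hw)
  have hne : L.Nonempty := by
    rw [Finset.nonempty_iff_ne_empty]
    intro he
    rw [he, Finset.sum_empty] at hsum
    linarith
  obtain ⟨a, haL, hmax⟩ := Finset.exists_max_image L (fun a => l a + w a) hne
  have ha : 0 < w a := (Finset.mem_filter.1 haL).2
  refine ⟨a, ha, ?_⟩
  have hle : l a + w a ≤ q := (h1 a ha).2
  have hpa : p ≤ l a + w a := by
    have := (h1 a ha).1
    linarith
  have hvol : volume (⋃ c ∈ L, Ioo (l c) (l c + w c)) = ∑ c ∈ L, volume (Ioo (l c) (l c + w c)) := by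
    refine measure_biUnion_finset ?_ (fun c _ => measurableSet_Ioo)
    intro c hc d hd hcd
    have wc : 0 < w c := (Finset.mem_filter.1 hc).2
    have wd : 0 < w d := (Finset.mem_filter.1 hd).2
    rw [Function.onFun, Set.disjoint_left]
    intro x hx hx'
    rcases h2 c d hcd wc wd with hh | hh
    · linarith [hx.2, hx'.1]
    · linarith [hx.1, hx'.2]
  have hsub : (⋃ c ∈ L, Ioo (l c) (l c + w c)) ⊆ Ioo p (l a + w a) := by
    intro x hx
    simp only [mem_iUnion] at hx
    obtain ⟨c, hc, hx⟩ := hx
    have wc : 0 < w c := (Finset.mem_filter.1 hc).2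
    exact ⟨by linarith [(h1 c wc).1, hx.1], lt_of_lt_of_le hx.2 (hmax c hc)⟩
  have hm := measure_mono (μ := volume) hsub
  rw [hvol, Real.volume_Ioo] at hm
  have hs2 : ∑ c ∈ L, volume (Ioo (l c) (l c + w c)) = ENNReal.ofReal (q - p) := by
    rw [← hsum, ENNReal.ofReal_sum_of_nonneg (fun i _ => h0 i)]
    refine Finset.sum_congr rfl fun c _ => ?_
    rw [Real.volume_Ioo]
    congr 1
    ring
  rw [hs2, ENNReal.ofReal_le_ofReal_iff (by linarith)] at hm
  linarith

theorem endd : S_END := by
  intro A _ p q l w hpq h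
  refine ⟨end_right hpq h, ?_⟩
  have h' : Tile (-q) (-p) (fun a => -(l a + w a)) w := by
    obtain ⟨h0, h1, h2, h3⟩ := h
    refine ⟨h0, fun a ha => ?_, fun a b hab ha hb => ?_, by rw [h3]; ring⟩
    · have := h1 a ha
      constructor
      · show -q ≤ -(l a + w a)
        linarith [this.2]
      · show -(l a + w a) + w a ≤ -p
        linarith [this.1]
    · rcases h2 a b hab ha hb with hh | hh
      · right
        show -(l b + w b) + w b ≤ -(l a + w a)
        linarith
      · left
        show -(l a + w a) + w a ≤ -(l b + w b)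
        linarith
  obtain ⟨a, ha, hla⟩ := end_right (by linarith) h'
  exact ⟨a, ha, by linarith⟩

end Pool.Agent.W5h52.IE
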