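import Pool.Agent.W5h52.IE.Main0

open MeasureTheory Set Function Filter Topology

namespace Pool.Agent.W5h52.IE

theorem fib : S_FIB := by
  intro G _ _ _ _ _ _ _ _ μ _ _ d I g hI E hE hinv hdich
  have hmeas : Measurable fun x : ℝ => μ (Prod.mk x ⁻¹' E) := measurable_measure_prodMk_left hE
  set K : Set ℝ := {x | μ (Prod.mk x ⁻¹' E) ≠ 0} with hK
  have hKm : MeasurableSet K := (hmeas (measurableSet_singleton 0)).compl
  have hstep : ∀ x, μ (Prod.mk (I.map x) ⁻¹' E) = μ (Prod.mk x ⁻¹' E) := by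
    intro x
    have e : Prod.mk x ⁻¹' E = (fun y => I.simple g x * y) ⁻¹' (Prod.mk (I.map x) ⁻¹' E) := by
      ext y
      have : (x, y) ∈ I.skew g ⁻¹' E ↔ (x, y) ∈ E := by rw [hinv]
      exact this.symm
    rw [e, measure_preimage_mul]
  have hKinv : I.map ⁻¹' K = K := by
    ext x
    simp only [hK, mem_preimage, mem_setOf_eq]
    exact not_congr (by rw [hstep x])
  have hconst := hI.toPreErgodic.aeconst_set hKm hKinv
  have hdich' : ∀ᵐ x ∂leb, μ (Prod.mk x ⁻¹' E) = 0 ∨ μ (Prod.mk x ⁻¹' Eᶜ) = 0 := by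
    have h0 : leb {(0 : ℝ)} = 0 := by
      refine le_antisymm ((Measure.restrict_apply_le _ _).trans ?_) bot_le
      simp
    have h1 : ∀ᵐ x ∂leb, x ∈ Ico (0 : ℝ) 1 := ae_restrict_mem measurableSet_Ico
    have h2 : ∀ᵐ x ∂leb, x ∉ ({0} : Set ℝ) := measure_eq_zero_iff_ae_notMem.1 h0
    have h3 : ∀ᵐ x ∂leb, x ∈ Ioo (0 : ℝ) 1 →
        μ {y | (x, y) ∈ E} = 0 ∨ μ {y | (x, y) ∈ E}ᶜ = 0 := ae_restrict_of_ae hdich
    filter_upwards [h1, h2, h3] with x hx1 hx2 hx3
    exact hx3 ⟨lt_of_le_of_ne hx1.1 (fun h => hx2 h.symm), hx1.2⟩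
  rw [eventuallyConst_set] at hconst ⊢
  rcases hconst with h | h
  · left
    have h0 : (leb.prod μ) Eᶜ = 0 := by
      rw [Measure.measure_prod_null hE.compl]
      filter_upwards [h, hdich'] with x hx1 hx2
      exact hx2.resolve_left hx1
    filter_upwards [measure_eq_zero_iff_ae_notMem.1 h0] with z hz
    exact not_not.1 hz
  · right
    have h0 : (leb.prod μ) E = 0 := by
      rw [Measure.measure_prod_null hE]
      filter_upwards [h] with x hx1
      exact not_not.1 hx1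
    exact measure_eq_zero_iff_ae_notMem.1 h0

end Pool.Agent.W5h52.IE
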