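import Pool.Agent.W5h52.IE.Main0

open MeasureTheory Set Function Filter Topology

set_option linter.all false
namespace Pool.Agent.W5h52.IE

theorem fibH : S_FIB := by
  intro G _ _ _ _ _ _ _ _ μ _ _ d I g hI E hE hinv hx
  have hmem : ∀ x y, (x, y) ∈ E ↔ (I.map x, I.simple g x * y) ∈ E := by
    intro x y
    constructor
    · intro h
      have : (x, y) ∈ I.skew g ⁻¹' E := by rw [hinv]; exact h
      exact this
    · intro h
      have : (x, y) ∈ I.skew g ⁻¹' E := h
      rwa [hinv] at this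
  set K : Set ℝ := {x | μ (Prod.mk x ⁻¹' E) ≠ 0} with hK
  have hKm : MeasurableSet K := by
    have h1 : Measurable fun x => μ (Prod.mk x ⁻¹' E) := measurable_measure_prodMk_left hE
    exact h1 (measurableSet_singleton (0 : ENNReal)).compl
  have hfib : ∀ x, μ (Prod.mk x ⁻¹' E) = μ (Prod.mk (I.map x) ⁻¹' E) := by
    intro x
    have : Prod.mk x ⁻¹' E = (fun y => I.simple g x * y) ⁻¹' (Prod.mk (I.map x) ⁻¹' E) := by
      ext y
      exact hmem x y
    rw [this, measure_preimage_mul]
  have hKinv : I.map ⁻¹' K = K := by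
    ext x
    show μ (Prod.mk (I.map x) ⁻¹' E) ≠ 0 ↔ μ (Prod.mk x ⁻¹' E) ≠ 0
    rw [hfib x]
  have hx' : ∀ᵐ x ∂leb, μ (Prod.mk x ⁻¹' E) = 0 ∨ μ (Prod.mk x ⁻¹' E)ᶜ = 0 := by
    unfold leb
    rw [ae_restrict_iff' measurableSet_Ico]
    have h0 : ∀ᵐ x : ℝ, x ≠ 0 := by
      have : ({0} : Set ℝ)ᶜ ∈ ae (volume : Measure ℝ) := compl_mem_ae_iff.mpr (by simp)
      exact this
    filter_upwards [hx, h0] with x h1 h2 h3
    exact h1 ⟨lt_of_le_of_ne h3.1 (Ne.symm h2), h3.2⟩
  have hE0 : EventuallyConst E (ae (leb.prod μ)) := by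
    rw [eventuallyConst_set']
    rcases hI.toPreErgodic.ae_empty_or_univ hKm hKinv with h | h
    · left
      rw [ae_eq_empty, Measure.measure_prod_null hE]
      filter_upwards [h] with x hxK
      by_contra hne
      have : x ∈ K := hne
      exact (hxK.mp this).elim
    · right
      rw [ae_eq_univ, Measure.measure_prod_null hE.compl]
      filter_upwards [h, hx'] with x hxK hx2
      have : x ∈ K := hxK.mpr trivial
      rcases hx2 with h3 | h3
      · exact absurd h3 this
      · exact h3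
  exact hE0

end Pool.Agent.W5h52.IE
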