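import Pool.Agent.W5h52.IE.Defs

open MeasureTheory Set Function Filter Topology

namespace Pool.Agent.W5h52.IE

/-- An interval exchange transformation of `[0,1)` on `d` intervals: lengths `len j > 0` with sum
`1`, and the permutation giving the order of the image intervals. -/
structure IET (d : ℕ) where
  len : Fin d → ℝ
  pos : ∀ j, 0 < len j
  sum_len : ∑ j, len j = 1
  perm : Equiv.Perm (Fin d)

namespace IET
variable {d : ℕ} (I : IET d)

/-- left end point of the `j`-th interval -/
noncomputable def left (j : Fin d) : ℝ := ∑ i ∈ Finset.univ.filter (fun i => i < j), I.len i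

/-- left end point of the image of the `j`-th interval: the images are placed in the order given by
`perm` -/
noncomputable def left' (j : Fin d) : ℝ :=
  ∑ i ∈ Finset.univ.filter (fun i => I.perm i < I.perm j), I.len i

/-- the `j`-th exchanged interval `I_j = [left j, left j + len j)` -/
def piece (j : Fin d) : Set ℝ := Ico (I.left j) (I.left j + I.len j)

/-- the interval exchange `T`: the `j`-th interval is translated by `left' j - left j` (outside
`[0,1)` it is the identity; only `[0,1)` matters) -/
noncomputable def map (x : ℝ) : ℝ :=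
  x + ∑ j, (I.piece j).indicator (fun _ => I.left' j - I.left j) x

/-- the simple function with value `g j` on the `j`-th interval -/
noncomputable def simple {G : Type} [Group G] (g : Fin d → G) (x : ℝ) : G :=
  open Classical in if h : ∃ j, x ∈ I.piece j then g h.choose else 1

/-- the skew product `(x, y) ↦ (T x, φ(x) y)` -/
noncomputable def skew {G : Type} [Group G] (g : Fin d → G) (z : ℝ × G) : ℝ × G :=
  (I.map z.1, I.simple g z.1 * z.2)

/-- the initial state -/
noncomputable def st : St (Fin d) := ⟨0, 1, I.left, I.left', I.len⟩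
end IET

/-- Lebesgue measure on `[0,1)` -/
noncomputable def leb : Measure ℝ := volume.restrict (Ico (0 : ℝ) 1)

/-- (C1) facts on the initial state. -/
def S_INIT : Prop := ∀ (d : ℕ) (I : IET d),
  (∀ x ∈ Ico (0 : ℝ) 1, ∃! j, x ∈ I.piece j) ∧ (∀ j, I.piece j ⊆ Ico 0 1) ∧
  (∀ j, ∀ x ∈ I.piece j, I.map x = x + (I.left' j - I.left j)) ∧
  (∀ (G : Type) [Group G] (g : Fin d → G) j, ∀ x ∈ I.piece j, I.simple g x = g j) ∧
  (∀ x, x ∉ Ico (0 : ℝ) 1 → I.map x = x ∧
    ∀ (G : Type) [Group G] (g : Fin d → G), I.simple g x = 1) ∧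
  (Ergodic I.map leb → Ok I.st)

/-- (C3) the skew products are measure preserving. -/
def S_MP : Prop := ∀ (G : Type) [Group G]
  [TopologicalSpace G] [IsTopologicalGroup G] [CompactSpace G] [T2Space G]
  [SecondCountableTopology G] [MeasurableSpace G] [BorelSpace G]
  (μ : Measure G) [μ.IsHaarMeasure] [IsProbabilityMeasure μ] (d : ℕ) (I : IET d) (g : Fin d → G),
  Ergodic I.map leb → MeasurePreserving (I.skew g) (leb.prod μ) (leb.prod μ)

/-- (C4) the main theorem. -/
def S_MAIN : Prop := ∀ (G : Type) [Group G]
  [TopologicalSpace G] [IsTopologicalGroup G] [CompactSpace G] [T2Space G]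
  [SecondCountableTopology G] [MeasurableSpace G] [BorelSpace G]
  (μ : Measure G) [μ.IsHaarMeasure] [IsProbabilityMeasure μ],
  (∀ᵐ z : G × G ∂(μ.prod μ), Dense (Subgroup.closure ({z.1, z.2} : Set G) : Set G)) →
  ∀ (d : ℕ) (I : IET d), Ergodic I.map leb →
    ∀ᵐ g : Fin d → G ∂(Measure.pi fun _ => μ), Ergodic (I.skew g) (leb.prod μ)

end Pool.Agent.W5h52.IE
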