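import Pool.Agent.W5h52.IE.Defs

/-! (B4) Lebesgue points, uniformly on the compact group. -/

set_option autoImplicit false

open MeasureTheory Set Function Filter Topology Metric

namespace Pool.Agent.W5h52.IE

/-- A finite net for the translates of a continuous function on a compact group. -/
theorem exists_net {G : Type} [Group G] [TopologicalSpace G] [IsTopologicalGroup G] [CompactSpace G]
    (κ : C(G, ℝ)) (δ : ℝ) (hδ : 0 < δ) :
    ∃ D : Finset G, ∀ y, ∃ y' ∈ D, ∀ z, |κ (y⁻¹ * z) - κ (y'⁻¹ * z)| ≤ δ := by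
  let Φ : C(G, C(G, ℝ)) := (⟨fun p : G × G => κ (p.1⁻¹ * p.2), by fun_prop⟩ : C(G × G, ℝ)).curry
  have hΦ : ∀ y z, Φ y z = κ (y⁻¹ * z) := fun y z => rfl
  obtain ⟨D, -, hD⟩ := (isCompact_univ (X := G)).elim_nhds_subcover
    (fun y => Φ ⁻¹' (ball (Φ y) δ)) (fun y _ =>
      Φ.continuous.continuousAt.preimage_mem_nhds (ball_mem_nhds _ hδ))
  refine ⟨D, fun y => ?_⟩
  have h1 := hD (mem_univ y)
  simp only [mem_iUnion, mem_preimage, mem_ball] at h1
  obtain ⟨y', hy', h2⟩ := h1
  refine ⟨y', hy', fun z => ?_⟩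
  have h3 := (ContinuousMap.dist_apply_le_dist (f := Φ y) (g := Φ y') z).trans h2.le
  rwa [Real.dist_eq, hΦ, hΦ] at h3

/-- Quantitative Lebesgue points of a bounded measurable function. -/
theorem leb_one (f : ℝ → ℝ) (hf : Measurable f) (M : ℝ) (hM : ∀ x, |f x| ≤ M) :
    ∀ᵐ x : ℝ, ∀ η : ℝ, 0 < η → ∀ e : ℝ, 0 < e → ∃ ρ : ℝ, 0 < ρ ∧ ∀ r : ℝ, 0 < r → r < ρ →
      volume {t | t ∈ closedBall x r ∧ e ≤ |f t - f x|} ≤ ENNReal.ofReal (η * r) := by
  have hint : LocallyIntegrable f volume := by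
    intro x
    refine ⟨Ioo (x - 1) (x + 1), Ioo_mem_nhds (by linarith) (by linarith), ?_⟩
    refine Measure.integrableOn_of_bounded (M := M) ?_ hf.aestronglyMeasurable ?_
    · simp
    · exact ae_of_all _ fun x => by simpa using hM x
  filter_upwards [IsUnifLocDoublingMeasure.ae_tendsto_average_norm_sub (μ := volume) hint 1] with x hx
  intro η hη e he
  have h1 := hx (l := 𝓝[>] (0 : ℝ)) (fun _ => x) (fun r => r) tendsto_id (by
    filter_upwards [self_mem_nhdsWithin] with r hr
    rw [one_mul]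
    exact mem_closedBall_self (le_of_lt hr))
  have h2 := (tendsto_order.1 h1).2 (η * e / 2) (by positivity)
  rw [eventually_nhdsWithin_iff] at h2
  obtain ⟨ρ, hρ, h3⟩ := Metric.eventually_nhds_iff.1 h2
  refine ⟨ρ, hρ, fun r hr hrρ => ?_⟩
  have h4 := h3 (y := r) (by rw [Real.dist_eq, sub_zero, abs_of_pos hr]; exact hrρ) hr
  have hv : volume.real (closedBall x r) = 2 * r := by
    rw [Measure.real, Real.volume_closedBall, ENNReal.toReal_ofReal (by linarith)]
  rw [setAverage_eq, hv, smul_eq_mul] at h4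
  have h5 : ∫ y in closedBall x r, ‖f y - f x‖ ≤ η * e * r := by
    have h6 : 0 < 2 * r := by linarith
    rw [inv_mul_lt_iff₀ h6] at h4
    linarith
  have hintg : Integrable (fun y => ‖f y - f x‖) (volume.restrict (closedBall x r)) := by
    have : IntegrableOn (fun y => ‖f y - f x‖) (closedBall x r) := by
      refine Measure.integrableOn_of_bounded (M := M + M) ?_
        (hf.sub_const _).norm.aestronglyMeasurable ?_
      · rw [Real.volume_closedBall]; exact ENNReal.ofReal_ne_top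
      · refine ae_of_all _ fun y => ?_
        rw [norm_norm]
        calc ‖f y - f x‖ ≤ ‖f y‖ + ‖f x‖ := norm_sub_le _ _
          _ ≤ M + M := add_le_add (by simpa using hM y) (by simpa using hM x)
    exact this
  have h7 := mul_meas_ge_le_integral_of_nonneg (ae_of_all _ fun y => norm_nonneg _) hintg e
  have h8 : (volume.restrict (closedBall x r)).real {y | e ≤ ‖f y - f x‖} ≤ η * r := by
    have h9 : e * (volume.restrict (closedBall x r)).real {y | e ≤ ‖f y - f x‖} ≤ e * (η * r) := by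
      calc _ ≤ _ := h7
        _ ≤ η * e * r := h5
        _ = e * (η * r) := by ring
    exact le_of_mul_le_mul_left h9 he
  have hms : MeasurableSet {y | e ≤ ‖f y - f x‖} :=
    measurableSet_le measurable_const (hf.sub_const _).norm
  have h10 : {t | t ∈ closedBall x r ∧ e ≤ |f t - f x|} =
      {y | e ≤ ‖f y - f x‖} ∩ closedBall x r := by
    ext t
    simp only [mem_ofPred_eq, mem_inter_iff, Real.norm_eq_abs, and_comm]
  rw [h10, ← Measure.restrict_apply hms]
  have h11 : (volume.restrict (closedBall x r)) {y | e ≤ ‖f y - f x‖} ≠ ⊤ := by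
    rw [Measure.restrict_apply hms]
    refine ne_top_of_le_ne_top ?_ (measure_mono inter_subset_right)
    rw [Real.volume_closedBall]; exact ENNReal.ofReal_ne_top
  rw [← ENNReal.ofReal_toReal h11]
  exact ENNReal.ofReal_le_ofReal h8

theorem lebT : S_LEB := by
  intro G _ _ _ _ _ _ κ u hm h1 h2 c hc
  -- bound
  obtain ⟨M, hM⟩ : ∃ M : ℝ, ∀ z, |κ z| ≤ M := ⟨‖κ‖, fun z => by
    have := κ.norm_coe_le_norm z
    simpa using this⟩
  have hM' : ∀ y x, |u x y| ≤ M := fun y x => h2 x y M hM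
  choose D hD using fun n : ℕ => exists_net κ (1 / (n + 1)) (by positivity)
  have hae : ∀ᵐ x : ℝ, ∀ n : ℕ, ∀ y ∈ D n, ∀ η : ℝ, 0 < η → ∀ e : ℝ, 0 < e → ∃ ρ : ℝ, 0 < ρ ∧
      ∀ r : ℝ, 0 < r → r < ρ →
      volume {t | t ∈ closedBall x r ∧ e ≤ |u t y - u x y|} ≤ ENNReal.ofReal (η * r) := by
    rw [ae_all_iff]
    intro n
    rw [Finset.eventually_all]
    intro y _
    exact leb_one (fun x => u x y) (hm y) M (hM' y)
  filter_upwards [hae] with x hx
  intro ε hε
  obtain ⟨n, hn⟩ := exists_nat_one_div_lt (show (0 : ℝ) < ε / 3 by positivity)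
  -- choose the radius
  set K : ℝ := (D n).card + 1 with hK
  have hK0 : 0 < K := by positivity
  have hη : 0 < c / (4 * K) := by positivity
  have hρ : ∀ y ∈ D n, ∃ ρ : ℝ, 0 < ρ ∧ ∀ r : ℝ, 0 < r → r < ρ →
      volume {t | t ∈ closedBall x r ∧ ε / 3 ≤ |u t y - u x y|} ≤
        ENNReal.ofReal (c / (4 * K) * r) := fun y hy => hx n y hy _ hη _ (by positivity)
  choose! R hR0 hR using hρ
  obtain ⟨ρ, hρ0, hρ⟩ : ∃ ρ : ℝ, 0 < ρ ∧ ∀ y ∈ D n, ρ ≤ R y := by
    by_cases hne : (D n).Nonempty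
    · obtain ⟨y, hy, hy'⟩ := (D n).exists_min_image R hne
      exact ⟨R y, hR0 y hy, fun z hz => hy' z hz⟩
    · rw [Finset.not_nonempty_iff_eq_empty] at hne
      exact ⟨1, one_pos, by simp [hne]⟩
  refine ⟨ρ, hρ0, ?_⟩
  intro p q l m w hpx hxq hqp hcw hpl hlq hpm hmq F hF
  set r := q - p with hr
  have hr0 : 0 < r := by rw [hr]; linarith
  have hw : 0 < w := lt_of_lt_of_le (by positivity) hcw
  -- the bad set
  set B : Set ℝ := ⋃ y ∈ D n, {t | t ∈ closedBall x r ∧ ε / 3 ≤ |u t y - u x y|} with hB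
  have hBv : volume B ≤ ENNReal.ofReal (c / 4 * r) := by
    calc volume B ≤ ∑ y ∈ D n, volume {t | t ∈ closedBall x r ∧ ε / 3 ≤ |u t y - u x y|} :=
          measure_biUnion_finset_le _ _
      _ ≤ ∑ y ∈ D n, ENNReal.ofReal (c / (4 * K) * r) :=
          Finset.sum_le_sum fun y hy => hR y hy r hr0 (lt_of_lt_of_le hqp (hρ y hy))
      _ = ENNReal.ofReal ((D n).card * (c / (4 * K) * r)) := by
          rw [Finset.sum_const, nsmul_eq_mul, ← ENNReal.ofReal_natCast,
            ← ENNReal.ofReal_mul (by positivity)]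
      _ ≤ ENNReal.ofReal (c / 4 * r) := by
          apply ENNReal.ofReal_le_ofReal
          have h3 : ((D n).card : ℝ) ≤ K := by rw [hK]; linarith
          calc ((D n).card : ℝ) * (c / (4 * K) * r) ≤ K * (c / (4 * K) * r) :=
                mul_le_mul_of_nonneg_right h3 (by positivity)
            _ = c / 4 * r := by field_simp
  by_contra hcon
  push Not at hcon
  have hgood : ∀ t, t ∈ Ioo p q → t ∉ B → ∀ y, |u t y - u x y| ≤ ε := by
    intro t ht htB y
    obtain ⟨y', hy', h3⟩ := hD n y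
    have h4 : ∀ z, |κ (y⁻¹ * z) - κ (y'⁻¹ * z)| ≤ ε / 3 := fun z => (h3 z).trans hn.le
    have h5 := h1 t y y' _ h4
    have h6 := h1 x y y' _ h4
    have h7 : |u t y' - u x y'| < ε / 3 := by
      by_contra h8
      rw [not_lt] at h8
      apply htB
      rw [hB, mem_iUnion₂]
      refine ⟨y', hy', ?_, h8⟩
      rw [mem_closedBall, Real.dist_eq, hr]
      rw [abs_le]
      constructor <;> linarith [ht.1, ht.2]
    have h8 : |u t y - u x y| ≤ |u t y - u t y'| + |u t y' - u x y'| + |u x y - u x y'| := by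
      have e1 : u t y - u x y = (u t y - u t y') + (u t y' - u x y') - (u x y - u x y') := by ring
      rw [e1]
      exact (abs_sub _ _).trans (add_le_add_left (abs_add_le _ _) _)
    linarith
  have hsub : Ioo l (l + w) ⊆ Fᶜ ∪ (B ∪ (fun t => t + (m - l)) ⁻¹' B) := by
    intro t ht
    by_contra h3
    simp only [mem_union, mem_compl_iff, mem_preimage, not_or, not_not] at h3
    obtain ⟨h3, h4, h5⟩ := h3
    have h6 : ∀ y, |u t y - u x y| ≤ ε := hgood t ⟨by linarith [ht.1], by linarith [ht.2]⟩ h4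
    obtain ⟨y, hy⟩ := hcon t h3 ht h6
    have h7 := hgood (t + (m - l)) ⟨by linarith [ht.1], by linarith [ht.2]⟩ h5 y
    linarith
  have hvol : ENNReal.ofReal w ≤ 0 + (ENNReal.ofReal (c / 4 * r) + ENNReal.ofReal (c / 4 * r)) := by
    calc ENNReal.ofReal w = volume (Ioo l (l + w)) := by
          rw [Real.volume_Ioo]; congr 1; ring
      _ ≤ volume (Fᶜ ∪ (B ∪ (fun t => t + (m - l)) ⁻¹' B)) := measure_mono hsub
      _ ≤ volume Fᶜ + volume (B ∪ (fun t => t + (m - l)) ⁻¹' B) := measure_union_le _ _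
      _ ≤ volume Fᶜ + (volume B + volume ((fun t => t + (m - l)) ⁻¹' B)) := by
          gcongr
          exact measure_union_le _ _
      _ ≤ _ := by
          have h3 : volume Fᶜ = 0 := hF
          rw [h3, measure_preimage_add_right]
          gcongr
  rw [zero_add, ← ENNReal.ofReal_add (by positivity) (by positivity),
    ENNReal.ofReal_le_ofReal_iff (by positivity)] at hvol
  have : 0 < c * r := by positivity
  linarith

end Pool.Agent.W5h52.IE
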