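import Pool.Agent.W5h52.IE.Fin0

open MeasureTheory Set Function Filter Topology

set_option linter.all false
namespace Pool.Agent.W5h52.IE

def S_TWO : Prop := ∀ (A : Type) [Fintype A] (s : St A), Ok s →
  (∀ a, s.w a ≤ 3 / 4 * (s.q - s.p)) →
  ∃ a b, a ≠ b ∧ (s.q - s.p) / (4 * Fintype.card A) ≤ s.w a ∧
    (s.q - s.p) / (4 * Fintype.card A) ≤ s.w b

def S_PAIR : Prop := ∀ (A : Type) [Fintype A] [DecidableEq A] (G : Type) [Group G]
  [TopologicalSpace G] [IsTopologicalGroup G] [CompactSpace G] [T2Space G]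
  [SecondCountableTopology G] [MeasurableSpace G] [BorelSpace G]
  (μ : Measure G) [μ.IsHaarMeasure] [IsProbabilityMeasure μ] (a b : A), a ≠ b →
  MeasurePreserving (fun g : A → G => (g a, g b)) (Measure.pi fun _ => μ) (μ.prod μ)

def S_FIB : Prop := ∀ (G : Type) [Group G]
  [TopologicalSpace G] [IsTopologicalGroup G] [CompactSpace G] [T2Space G]
  [SecondCountableTopology G] [MeasurableSpace G] [BorelSpace G]
  (μ : Measure G) [μ.IsHaarMeasure] [IsProbabilityMeasure μ] (d : ℕ) (I : IET d) (g : Fin d → G),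
  Ergodic I.map leb → ∀ E : Set (ℝ × G), MeasurableSet E → I.skew g ⁻¹' E = E →
  (∀ᵐ x : ℝ, x ∈ Ioo (0 : ℝ) 1 → μ {y | (x, y) ∈ E} = 0 ∨ μ {y | (x, y) ∈ E}ᶜ = 0) →
  EventuallyConst E (ae (leb.prod μ))

lemma path_det {A : Type} [DecidableEq A] {z0 : Nd A} : ∀ (L : List (Cd A)) (z z' : Nd A),
    Path z0 L z → Path z0 L z' → z = z' := by
  intro L
  induction L with
  | nil => intro z z' h h'; cases h; cases h'; rfl
  | cons e L ih =>
    intro z z' h h'
    cases h with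
    | cons _ y _ hy _ =>
      cases h' with
      | cons _ y' _ hy' _ => rw [ih _ _ hy hy']

theorem main0 (hinit : S_INIT) (hmp : S_MP) (hA : S_A) (htr : S_TR) (hhaar : S_HAAR) (hB : S_B)
    (htwo : S_TWO) (hpair : S_PAIR) (hfib : S_FIB) : S_MAIN := by
  intro G _ _ _ _ _ _ _ _ μ _ _ hG d I hI
  obtain ⟨i1, i2, i3, i4, i5, i6⟩ := hinit d I
  have hok : Ok I.st := i6 hI
  obtain ⟨Z, hZ, hAA⟩ := hA (Fin d) I.st hok
  set z0 : Nd (Fin d) := (I.st, fun a => [a]) with hz0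
  set N : Set (Nd (Fin d)) := {z | (∃ L, Path z0 L z) ∧ Ok z.1 ∧
    ∀ a, z.1.w a ≤ 3 / 4 * (z.1.q - z.1.p)} with hN
  have hNc : N.Countable := by
    have hsub : N ⊆ ⋃ L : List (Cd (Fin d)), {z | Path z0 L z} := by
      rintro z ⟨⟨L, hL⟩, _⟩
      exact mem_iUnion.mpr ⟨L, hL⟩
    refine (Set.countable_iUnion fun L => ?_).mono hsub
    exact Set.Subsingleton.countable fun z hz z' hz' => path_det L z z' hz hz'
  have hNne : N.Nonempty := by
    have : ∃ x ∈ Ioo (0 : ℝ) 1, x ∉ Z := by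
      by_contra h
      push Not at h
      have h1 : volume (Ioo (0 : ℝ) 1) = 0 := measure_mono_null h (hZ.measure_zero _)
      simp [Real.volume_Ioo] at h1
    obtain ⟨x, hx, hxZ⟩ := this
    obtain ⟨L, z, hL, hz, _, _, hw⟩ := hAA x hx hxZ 1 one_pos
    exact ⟨z, ⟨L, hL⟩, hz, hw⟩
  obtain ⟨f, hf⟩ := hNc.exists_eq_range hNne
  have hfN : ∀ i, f i ∈ N := fun i => by rw [hf]; exact mem_range_self i
  choose a b hab ha hb using fun i => htwo (Fin d) (f i).1 (hfN i).2.1 (hfN i).2.2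
  have hd : 0 < d := by
    rcases Nat.eq_zero_or_pos d with h | h
    · subst h
      have := I.sum_len
      simp at this
    · exact h
  have hd' : (0 : ℝ) < d := by exact_mod_cast hd
  set lt : ℕ → Bool → Fin d := fun i j => if j then b i else a i with hlt
  have hwc : ∀ i j, 1 / (4 * (d : ℝ)) * ((f i).1.q - (f i).1.p) ≤ (f i).1.w (lt i j) := by
    intro i j
    have e : 1 / (4 * (d : ℝ)) * ((f i).1.q - (f i).1.p) =
        ((f i).1.q - (f i).1.p) / (4 * Fintype.card (Fin d)) := by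
      rw [Fintype.card_fin]; ring
    rw [e]
    cases j
    · exact ha i
    · exact hb i
  have hwpos : ∀ i j, 0 < (f i).1.w (lt i j) := by
    intro i j
    refine lt_of_lt_of_le ?_ (hwc i j)
    have := (hfN i).2.1.lt
    have h2 : 0 < (f i).1.q - (f i).1.p := by linarith
    positivity
  have hBB := hB (Fin d → G) (Measure.pi fun _ => μ) G μ hG (1 / (4 * (d : ℝ))) (by positivity)
    (fun i => ⟨(f i).1.p, (f i).1.q, fun j => (f i).1.l (lt i j), fun j => (f i).1.m (lt i j),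
      fun j => (f i).1.w (lt i j), fun j g => ev g ((f i).2 (lt i j))⟩) ?_ ?_ ?_
  · filter_upwards [hBB] with g hg
    refine ⟨hmp G μ d I g hI, ⟨fun E hE hinv => ?_⟩⟩
    refine hfib G μ d I g hI E hE hinv (hg E hE ?_)
    intro i j
    obtain ⟨⟨L, hL⟩, _, _⟩ := hfN i
    have hbase : ∀ c : Fin d, ∀ᵐ x : ℝ, x ∈ Ioo (I.st.l c) (I.st.l c + I.st.w c) →
        ∀ y, ((x + (I.st.m c - I.st.l c), g c * y) ∈ E) = ((x, y) ∈ E) := by
      intro c
      refine Filter.Eventually.of_forall fun x hx y => ?_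
      have hxp : x ∈ I.piece c := ⟨hx.1.le, hx.2⟩
      have h1 : I.skew g (x, y) = (x + (I.st.m c - I.st.l c), g c * y) := by
        show (I.map x, I.simple g x * y) = _
        rw [i3 c x hxp, i4 G g c x hxp]
        rfl
      rw [← h1]
      apply propext
      constructor
      · intro h
        have : (x, y) ∈ I.skew g ⁻¹' E := h
        rwa [hinv] at this
      · intro h
        have : (x, y) ∈ I.skew g ⁻¹' E := by rw [hinv]; exact h
        exact this
    have h2 := htr (Fin d) G Prop I.st g (fun x y => (x, y) ∈ E) hbase L (f i) hL (lt i j)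
    filter_upwards [h2] with x hx hxI y
    exact iff_of_eq (hx hxI y)
  · intro i
    have hOk := (hfN i).2.1
    refine ⟨hOk.lt, fun j => ⟨hwc i j, ?_⟩⟩
    have t := hOk.top.2.1 _ (hwpos i j)
    have u := hOk.bot.2.1 _ (hwpos i j)
    exact ⟨t.1, t.2, u.1, u.2⟩
  · intro i
    obtain ⟨⟨L, hL⟩, _, _⟩ := hfN i
    exact (hpair (Fin d) G μ (a i) (b i) (hab i)).comp (hhaar (Fin d) G μ I.st L (f i) hL)
  · filter_upwards [hZ.ae_notMem volume] with x hxZ hx ρ hρ
    obtain ⟨L, z, hL, hz, hxz, hzρ, hw⟩ := hAA x hx hxZ ρ hρ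
    have hzN : z ∈ N := ⟨⟨L, hL⟩, hz, hw⟩
    rw [hf] at hzN
    obtain ⟨i, rfl⟩ := hzN
    exact ⟨i, hxz, hzρ⟩

end Pool.Agent.W5h52.IE
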