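import Mathlib

open MeasureTheory Set Function Filter Topology

namespace Pool.Agent.W5h52.IE

/-- Two different coordinates of a random vector with independent coordinates of law `μ` have law
`μ.prod μ`. -/
theorem pair (A : Type) [Fintype A] [DecidableEq A] (G : Type) [MeasurableSpace G]
    (μ : Measure G) [IsProbabilityMeasure μ] (a b : A) (hab : a ≠ b) :
    MeasurePreserving (fun g : A → G => (g a, g b)) (Measure.pi fun _ => μ) (μ.prod μ) := by
  have hm : Measurable (fun g : A → G => (g a, g b)) :=
    (measurable_pi_apply a).prodMk (measurable_pi_apply b)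
  refine ⟨hm, ?_⟩
  symm
  refine Measure.prod_eq ?_
  intro s t hs ht
  rw [Measure.map_apply hm (hs.prod ht)]
  have e : (fun g : A → G => (g a, g b)) ⁻¹' (s ×ˢ t) =
      Set.pi univ (fun i => if i = a then s else if i = b then t else univ) := by
    ext g
    simp only [mem_preimage, mem_prod, Set.mem_pi, mem_univ, true_imp_iff]
    constructor
    · rintro ⟨h1, h2⟩ i
      split_ifs with h3 h4
      · exact h3 ▸ h1
      · exact h4 ▸ h2
      · trivial
    · intro h
      have h1 := h a
      have h2 := h b
      rw [if_pos rfl] at h1
      rw [if_neg hab.symm, if_pos rfl] at h2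
      exact ⟨h1, h2⟩
  rw [e, Measure.pi_pi]
  have e2 : ∀ i : A, μ (if i = a then s else if i = b then t else univ) =
      (if i = a then μ s else 1) * (if i = b then μ t else 1) := by
    intro i
    by_cases h1 : i = a
    · subst h1
      rw [if_pos rfl, if_pos rfl, if_neg hab, mul_one]
    · rw [if_neg h1, if_neg h1, one_mul]
      by_cases h2 : i = b
      · rw [if_pos h2, if_pos h2]
      · rw [if_neg h2, if_neg h2, measure_univ]
  rw [Finset.prod_congr rfl (fun i _ => e2 i), Finset.prod_mul_distrib,
    Finset.prod_ite_eq' Finset.univ a, Finset.prod_ite_eq' Finset.univ b,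
    if_pos (Finset.mem_univ _), if_pos (Finset.mem_univ _)]

end Pool.Agent.W5h52.IE
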