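import Pool.Agent.W5h52.IE.Defs

/-!
# (C4a) two letters of large width
-/

set_option autoImplicit false

open MeasureTheory Set Function Filter Topology

namespace Pool.Agent.W5h52.IE

theorem two {A : Type} [Fintype A] (s : Pool.Agent.W5h52.IE.St A) (h : Ok s)
    (hb : ∀ a, s.w a ≤ 3 / 4 * (s.q - s.p)) :
    ∃ a b, a ≠ b ∧ (s.q - s.p) / (4 * Fintype.card A) ≤ s.w a ∧
      (s.q - s.p) / (4 * Fintype.card A) ≤ s.w b := by
  classical
  have hJ : 0 < s.q - s.p := sub_pos.2 h.lt
  have hsum : ∑ a, s.w a = s.q - s.p := h.top.2.2.2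
  have hne : (Finset.univ : Finset A).Nonempty := by
    rw [Finset.nonempty_iff_ne_empty]
    intro h0
    rw [h0, Finset.sum_empty] at hsum
    exact hJ.ne hsum
  have hc : (0 : ℝ) < Fintype.card A := by
    exact_mod_cast Finset.card_pos.2 hne
  obtain ⟨a, _, ha⟩ := Finset.exists_le_of_sum_le (f := fun _ : A => (s.q - s.p) / Fintype.card A)
    (g := s.w) hne (by
      rw [Finset.sum_const, Finset.card_univ, nsmul_eq_mul, hsum]
      exact (mul_div_cancel₀ _ hc.ne').le)
  have hrest : ∑ b ∈ Finset.univ.erase a, s.w b = (s.q - s.p) - s.w a := by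
    rw [← hsum, ← Finset.add_sum_erase Finset.univ s.w (Finset.mem_univ a)]
    ring
  have hge : (s.q - s.p) / 4 ≤ ∑ b ∈ Finset.univ.erase a, s.w b := by
    rw [hrest]
    linarith [hb a]
  have hne2 : (Finset.univ.erase a).Nonempty := by
    rw [Finset.nonempty_iff_ne_empty]
    intro h0
    rw [h0, Finset.sum_empty] at hge
    linarith
  obtain ⟨b, hbm, hb2⟩ := Finset.exists_le_of_sum_le
    (f := fun _ : A => (s.q - s.p) / (4 * Fintype.card A)) (g := s.w) hne2 (by
      rw [Finset.sum_const, nsmul_eq_mul]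
      refine le_trans ?_ hge
      have h1 : ((Finset.univ.erase a).card : ℝ) ≤ Fintype.card A := by
        exact_mod_cast (Finset.card_le_card (Finset.subset_univ _))
      calc ((Finset.univ.erase a).card : ℝ) * ((s.q - s.p) / (4 * Fintype.card A)) ≤
            Fintype.card A * ((s.q - s.p) / (4 * Fintype.card A)) :=
            mul_le_mul_of_nonneg_right h1 (by positivity)
        _ = (s.q - s.p) / 4 := by
            field_simp)
  refine ⟨a, b, (Finset.ne_of_mem_erase hbm).symm, le_trans ?_ ha, hb2⟩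
  rw [div_le_div_iff₀ (by positivity) hc]
  nlinarith [mul_pos hJ hc]

end Pool.Agent.W5h52.IE
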