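import Pool.Agent.W5h52.IE.All
import Pool.Agent.W5h52.IE.FibH
import Pool.Agent.W5h52.IE.Two
import Pool.Agent.W5h52.IE.Pair
import Pool.Agent.W5h52.UL.Skew
import Pool.Agent.W5h52.UL.Key
import Pool.Agent.W5h52.UL.Subm
import Pool.Agent.W5h52.UL.Loc1
import Pool.Agent.W5h52.UL.Loc
import Pool.Agent.W5h52.UL.Uniq
import Pool.Agent.W5h52.UL.Slice
import Pool.Agent.W5h52.UL.Null
import Pool.Agent.W5h52.UL.Conn
import Pool.Agent.W5h52.UL.Rep
import Pool.Agent.W5h52.UL.Ulam

open MeasureTheory Set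

namespace Pool.Agent.W5h52.UL

theorem ulamFull : S_UL :=
  ulam (rep (slice (uniq (loc (loc1 key (subm key))) skew)) null conn)

end Pool.Agent.W5h52.UL

namespace Pool.Agent.W5h52.IE

theorem uncond (G : Type) [Group G] [TopologicalSpace G] [IsTopologicalGroup G] [CompactSpace G]
    [T2Space G] [SecondCountableTopology G] [ConnectedSpace G] [MeasurableSpace G] [BorelSpace G]
    (μ : Measure G) [μ.IsHaarMeasure] [IsProbabilityMeasure μ]
    (d : ℕ) (I : IET d) (hI : Ergodic I.map leb) :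
    ∀ᵐ g : Fin d → G ∂(Measure.pi fun _ => μ), Ergodic (I.skew g) (leb.prod μ) :=
  main0 init (mp init) sA tr haar sB (fun _ _ s h hb => two s h hb)
    (by intro A _ _ G _ _ _ _ _ _ _ _ μ _ _ a b hab; exact pair A G μ a b hab) fibH G μ (UL.ulamFull G μ) d I hI

end Pool.Agent.W5h52.IE
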